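import Pool.Agent.Lib.MP_17a322_ntMW.D6

/-!
Mordell-Weil, leaf M2: halves of the points over number fields.
-/

universe u

namespace MWA

open MvPolynomial
open Pool.Agent.Lib.MP_17a322_nt.VA

/-- The sum of an algebraic point and a generic point is generic. -/
private theorem M2_gen {K : Type u} [Field K] {N : ℕ} (A : AV K N) {E : Type u} [Field E] [Algebra K E]
    (g P' : A.Pts E) (hg : ∀ (G : MvPolynomial (Fin (N + 1)) K) (D : ℕ), G.IsHomogeneous D → G ∉ A.I →
      aeval (A.x g) G ≠ 0) (hP' : ∀ i, IsAlgebraic K (rt (A.x P') i))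
    (G : MvPolynomial (Fin (N + 1)) K) (D : ℕ) (hG : G.IsHomogeneous D) (hGA : G ∉ A.I) :
    aeval (A.x (P' + g)) G ≠ 0 := by
  refine D1 A (P' + g) (fun L' _ _ q => ?_) G D hG hGA
  refine (Z_generic_tdeg A hg q).trans ?_
  obtain ⟨T, -, hT, hc⟩ := Z_exists_basis (K := K) (A.x (P' + g))
  rw [hc]
  refine Z_tdeg_le_card (A.x g) (fun t : T => rt (A.x (P' + g)) t) fun i => ?_
  obtain ⟨k, hk⟩ : ∃ k : IntermediateField K E, k = IntermediateField.adjoin K
      (Set.range (rt (A.x (P' + g))) ∪ Set.range (rt (A.x P'))) := ⟨_, rfl⟩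
  obtain ⟨s, hs⟩ := Z_descend A k (P' + g) (fun i => by
    rw [hk]
    exact IntermediateField.subset_adjoin K _ (Or.inl ⟨i, rfl⟩))
  obtain ⟨t, ht⟩ := Z_descend A k P' (fun i => by
    rw [hk]
    exact IntermediateField.subset_adjoin K _ (Or.inr ⟨i, rfl⟩))
  have hsub := Z_img_sub A hs ht
  rw [add_sub_cancel_left] at hsub
  have hmem := Z_rt_mem A hsub i
  rw [hk] at hmem
  have hr : Set.range (fun t : T => rt (A.x (P' + g)) t) = rt (A.x (P' + g)) '' T := (Set.image_eq_range _ _).symm
  rw [hr]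
  refine Z_alg_adjoin ?_ hmem
  rintro x (⟨i, rfl⟩ | ⟨i, rfl⟩)
  · exact hT i
  · exact (hP' i).tower_top _

/-- The halves of an algebraic point over an algebraically closed field with a generic point. -/
private theorem M2_core {K : Type u} [Field K] {N : ℕ} (A : AV K N) {E : Type u} [Field E] [IsAlgClosed E]
    [Algebra K E] (g : A.Pts E) (hg : ∀ (G : MvPolynomial (Fin (N + 1)) K) (D : ℕ), G.IsHomogeneous D → G ∉ A.I →
      aeval (A.x g) G ≠ 0) {L : Type u} [Field L] [Algebra K L] [Algebra.IsAlgebraic K L] (ι : L →ₐ[K] E)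
    (P : A.Pts L) : ∃ q : A.Pts E, q + q = A.img ι P := by
  have hP' : ∀ i, IsAlgebraic K (rt (A.x (A.img ι P)) i) := by
    intro i
    have h1 : A.Img ι P (A.img ι P) := A.img_rep ι P
    rw [Z_img_rt A h1]
    exact (Algebra.IsAlgebraic.isAlgebraic (R := K) (rt (A.x P) i)).algHom ι
  obtain ⟨q₁, hq₁⟩ := D6 A (A.img ι P + g) (M2_gen A g (A.img ι P) hg hP')
  obtain ⟨q₂, hq₂⟩ := D6 A g hg
  refine ⟨q₁ - q₂, ?_⟩
  rw [sub_add_sub_comm, hq₁, hq₂, add_sub_cancel_right]

/-- Descent of a half to a number field. -/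
private theorem M2_desc {K L E : Type u} [Field K] [Field L] [NumberField L] [Field E] [Algebra K L] [Algebra K E]
    [Algebra L E] [IsScalarTower K L E] {N : ℕ} (A : AV K N) (P : A.Pts L) (q : A.Pts E)
    (hq : q + q = A.img (IsScalarTower.toAlgHom K L E) P) :
    ∃ (M : Type u) (_ : Field M) (_ : NumberField M) (_ : Algebra K M) (_ : Algebra L M)
      (_ : IsScalarTower K L M) (Q : A.Pts M), Q + Q = A.img (IsScalarTower.toAlgHom K L M) P := by
  have halg : ∀ i, IsAlgebraic L (rt (A.x q) i) := by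
    intro i
    refine Z_alg A q 2 two_ne_zero P ?_ i.1 i.2
    rw [two_nsmul, hq]
    exact A.img_rep (IsScalarTower.toAlgHom K L E) P
  have hfin : FiniteDimensional L (IntermediateField.adjoin L (Set.range (rt (A.x q)))) := by
    have : Finite (Set.range (rt (A.x q))) := Set.finite_range _
    refine IntermediateField.finiteDimensional_adjoin ?_
    rintro x ⟨i, rfl⟩
    exact (halg i).isIntegral
  obtain ⟨M, hM⟩ : ∃ M : IntermediateField L E, M = IntermediateField.adjoin L (Set.range (rt (A.x q))) := ⟨_, rfl⟩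
  rw [← hM] at hfin
  have hmem : ∀ i, rt (A.x q) i ∈ M := fun i => by
    rw [hM]
    exact IntermediateField.subset_adjoin L _ ⟨i, rfl⟩
  have hNF : NumberField M := NumberField.of_module_finite L M
  obtain ⟨j, hj⟩ := A.exists_x_ne q
  let iKM : Algebra K M := ((algebraMap L M).comp (algebraMap K L)).toAlgebra
  have iKLM : IsScalarTower K L M := IsScalarTower.of_algebraMap_eq fun _ => rfl
  have iKME : IsScalarTower K M E := IsScalarTower.of_algebraMap_eq fun x => by
    rw [IsScalarTower.algebraMap_apply K L E x]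
    rfl
  let v : M →ₐ[K] E := IsScalarTower.toAlgHom K M E
  let y : Fin (N + 1) → M := fun i => ⟨rt (A.x q) (i, j), hmem (i, j)⟩
  have hvy : ∀ i, v (y i) = (A.x q j)⁻¹ * A.x q i := by
    intro i
    show A.x q i / A.x q j = _
    rw [div_eq_inv_mul]
  have hvy' : (fun i => v (y i)) = fun i => (A.x q j)⁻¹ * A.x q i := funext hvy
  have hyP : A.IsPt y := by
    refine AV.IsPt.of_injective v v.injective ?_
    rw [hvy']
    exact AV.IsPt.smul (A.x_isPt q) _
  have hy0 : y ≠ 0 := by
    intro h0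
    have h1 := hvy j
    rw [h0, Pi.zero_apply, map_zero, inv_mul_cancel₀ hj] at h1
    exact zero_ne_one h1
  obtain ⟨Q, hQ⟩ := AV.exists_rep (A := A) hy0 hyP
  have hQq : A.img v Q = q := by
    refine (hQ.img v).unique ?_
    rw [hvy']
    exact ⟨(A.x q j)⁻¹, inv_ne_zero hj, fun i => rfl⟩
  refine ⟨M, inferInstance, hNF, iKM, inferInstance, iKLM, Q, ?_⟩
  apply AV.img_injective v
  rw [AV.img_add, hQq, hq, ← AV.img_comp]
  congr 1

/-- DOUBLING IS ONTO OVER FINITE EXTENSIONS.

PROOF.  `F`, `γ` from D6a, `E = AlgebraicClosure F`, `g = A.img (Algebra.ofId F E as K-homomorphism) γ`, generic (`aeval (A.x g) G` is a nonzero multiple of the image of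
`aeval (A.x γ) G`).  `L` is algebraic over `K` (number fields), so there is `ι : L →ₐ[K] E` (`IsAlgClosed.lift`); make `E` an algebra over `L` by it.  `P' = A.img ι P`.

Claim: `P' + g` is generic.  By D1 it suffices that `tdeg K (A.x q) ≤ tdeg K (A.x (P' + g))` for all points `q`, and `tdeg K (A.x q) ≤ tdeg K (A.x g)` by `Z_generic_tdeg` (VA/Z7).  Let
`k = IntermediateField.adjoin K (Set.range (rt (A.x (P' + g))) ∪ Set.range (rt (A.x P')))`; both points come from `A.Pts k` (`Z_descend`), so `g = (P' + g) - P'` comes from `A.Pts k`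
(`Z_img_sub`), so `rt (A.x g) i ∈ k` (`Z_rt_mem`).  The `rt (A.x P') i = ι (rt (A.x P) i)` are algebraic over `K` (`Z_img_rt`).  Take `T` of
`Z_exists_basis` (VA/Z3) for `A.x (P' + g)`: all elements of `k` are algebraic over the field generated by the `rt (A.x (P' + g)) t`, `t ∈ T` (`Z_alg_adjoin`), so `Z_tdeg_le_card` gives
`tdeg K (A.x g) ≤ Nat.card T = tdeg K (A.x (P' + g))`.

By D6 there are `q₁`, `q₂` in `A.Pts E` with `q₁ + q₁ = P' + g`, `q₂ + q₂ = g`; `q = q₁ - q₂` satisfies `q + q = P'`.  By `Z_alg` (VA/Z2, with this `L`, `F := E`, `m = 2`) all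
`rt (A.x q) i` are algebraic over `L`.  `M = IntermediateField.adjoin L (Set.range (rt (A.x q)))` is finite dimensional over `L`, so a number field (`Module.Finite.trans`, characteristic zero); the
algebra structure over `K` is the composition.  `Z_descend` for `M.restrictScalars K` (or directly as in W1: the vector `A.x q i / A.x q j` in `M` is a point by
`AV.IsPt.of_injective`) gives `Q : A.Pts M` with image `q`, and `Q + Q` and the image of `P` have the same image in `A.Pts E`, so they are equal (`AV.img_injective`, `AV.img_comp`). -/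
theorem M2 {K : Type u} [Field K] [NumberField K] {N : ℕ} (A : AV K N) {L : Type u} [Field L]
    [NumberField L] [Algebra K L] (P : A.Pts L) :
    ∃ (M : Type u) (_ : Field M) (_ : NumberField M) (_ : Algebra K M) (_ : Algebra L M)
      (_ : IsScalarTower K L M) (Q : A.Pts M), Q + Q = A.img (IsScalarTower.toAlgHom K L M) P := by
  classical
  obtain ⟨F, iF, iKF, γ, -, hγ⟩ := D6a A
  have hfin : Module.Finite K L := Module.Finite.of_restrictScalars_finite ℚ K L
  have halg : Algebra.IsAlgebraic K L := Algebra.IsAlgebraic.of_finite K L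
  let φ : F →ₐ[K] AlgebraicClosure F := IsScalarTower.toAlgHom K F (AlgebraicClosure F)
  let ι : L →ₐ[K] AlgebraicClosure F := IsAlgClosed.lift
  have hg : ∀ (G : MvPolynomial (Fin (N + 1)) K) (D : ℕ), G.IsHomogeneous D → G ∉ A.I →
      aeval (A.x (A.img φ γ)) G ≠ 0 := by
    intro G D hG hGA h0
    obtain ⟨c, hc, h1⟩ := A.img_rep φ γ
    have h2 : aeval (fun i => φ (A.x γ i)) G = φ (aeval (A.x γ) G) := by
      rw [← AlgHom.comp_apply, MvPolynomial.comp_aeval]
    have h3 : (fun i => φ (A.x γ i)) = fun i => c * A.x (A.img φ γ) i := funext h1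
    rw [h3, aeval_mul_homog hG, h0, mul_zero] at h2
    exact hγ G D hG hGA ((map_eq_zero φ).mp h2.symm)
  obtain ⟨q, hq⟩ := M2_core A (A.img φ γ) hg ι P
  let _ : Algebra L (AlgebraicClosure F) := ι.toRingHom.toAlgebra
  have : IsScalarTower K L (AlgebraicClosure F) := IsScalarTower.of_algebraMap_eq fun x => (ι.commutes x).symm
  exact M2_desc A P q hq

end MWA
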