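import Pool.Agent.Lib.MP_17a322_ntMW.M1a
import Pool.Agent.Lib.MP_17a322_nt.VA.A5b
import Pool.Agent.Lib.MP_17a322_nt.VA.Z2

/-!
Mordell-Weil, leaf M1: the points of order two are finite in number.
-/

universe u

namespace MWA

open MvPolynomial
open Pool.Agent.Lib.MP_17a322_nt.VA

/-- The ideal of the points of order two with nonzero `j`-th coordinate. -/
private noncomputable def M1_J {K : Type u} [Field K] {N : ℕ} (A : AV K N) (j : Fin (N + 1)) :
    Ideal (MvPolynomial (Fin (N + 1)) K) :=
  A.I ⊔ (Ideal.span {X j - 1} ⊔ Ideal.span (Set.range fun p : Fin (N + 1) × Fin (N + 1) =>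
    A.dup X p.1 * C (A.x (0 : A.Pts K) p.2) - A.dup X p.2 * C (A.x (0 : A.Pts K) p.1)))

private theorem M1_iff {K : Type u} [Field K] {N : ℕ} (A : AV K N) (j : Fin (N + 1)) {L : Type u}
    [Field L] [Algebra K L] (y : Fin (N + 1) → L) :
    (∀ f ∈ M1_J A j, aeval y f = 0) ↔ A.IsPt y ∧ y j = 1 ∧ ∀ a b,
      A.dup y a * algebraMap K L (A.x (0 : A.Pts K) b) =
        A.dup y b * algebraMap K L (A.x (0 : A.Pts K) a) := by
  have hd : ∀ a, aeval y (A.dup X a : MvPolynomial (Fin (N + 1)) K) = A.dup y a := by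
    intro a
    rw [A.map_dup (aeval y)]
    congr 1
    funext i
    exact aeval_X _ _
  have h0 : (∀ f ∈ M1_J A j, aeval y f = 0) ↔ M1_J A j ≤ RingHom.ker (aeval (R := K) y) := by
    constructor
    · intro h f hf
      exact (RingHom.mem_ker).2 (h f hf)
    · intro h f hf
      exact (RingHom.mem_ker).1 (h hf)
  rw [h0]
  unfold M1_J
  rw [sup_le_iff, sup_le_iff, Ideal.span_le, Ideal.span_le, Set.singleton_subset_iff,
    Set.range_subset_iff]
  refine and_congr ?_ (and_congr ?_ ?_)
  · constructor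
    · intro h f hf
      exact (RingHom.mem_ker).1 (h hf)
    · intro h f hf
      exact (RingHom.mem_ker).2 (h f hf)
  · rw [SetLike.mem_coe, RingHom.mem_ker, map_sub, aeval_X, map_one, sub_eq_zero]
  · constructor
    · intro h a b
      have h1 := h (a, b)
      rw [SetLike.mem_coe, RingHom.mem_ker, map_sub, map_mul, map_mul, hd, hd, aeval_C, aeval_C,
        sub_eq_zero] at h1
      exact h1
    · intro h p
      rw [SetLike.mem_coe, RingHom.mem_ker, map_sub, map_mul, map_mul, hd, hd, aeval_C, aeval_C,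
        sub_eq_zero]
      exact h p.1 p.2

private theorem M1_alg {K : Type u} [Field K] {N : ℕ} (A : AV K N) (j : Fin (N + 1)) {L : Type u}
    [Field L] [Algebra K L] (y : Fin (N + 1) → L) (h : ∀ f ∈ M1_J A j, aeval y f = 0)
    (i : Fin (N + 1)) : IsAlgebraic K (y i) := by
  obtain ⟨h1, h2, h3⟩ := (M1_iff A j y).1 h
  have hy : y ≠ 0 := by
    intro h0
    rw [h0, Pi.zero_apply] at h2
    exact zero_ne_one h2
  obtain ⟨P, hP⟩ := AV.exists_rep hy h1
  have hz := AV.zero_rep (A := A) (L := L)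
  have h4 : 2 • P = 0 := (hP.dup.of_prop hz.ne_zero h3).unique hz
  have h5 : A.Img (IsScalarTower.toAlgHom K K L) (0 : A.Pts K) (2 • P) := by
    rw [h4]
    exact Z_img_zero A _
  have h6 := Z_alg A P 2 two_ne_zero (0 : A.Pts K) h5 i j
  obtain ⟨c, hc, h7⟩ := hP
  have h8 : y i = A.x P i / A.x P j := by
    have h9 := h7 j
    rw [h2] at h9
    have h10 : A.x P j ≠ 0 := by
      intro h0
      rw [h0, mul_zero] at h9
      exact one_ne_zero h9
    rw [h7 i, eq_div_iff h10]
    linear_combination (-A.x P i) * h9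
  rw [h8]
  exact h6

private theorem M1_rep {K : Type u} [Field K] {N : ℕ} (A : AV K N) {Ω : Type u} [Field Ω]
    [Algebra K Ω] (T : A.Pts Ω) {j : Fin (N + 1)} (hj : A.x T j ≠ 0) :
    A.Rep T fun i => A.x T i / A.x T j :=
  ⟨(A.x T j)⁻¹, inv_ne_zero hj, fun i => by
    show A.x T i / A.x T j = (A.x T j)⁻¹ * A.x T i
    rw [div_eq_mul_inv, mul_comm]⟩

/-- The points of order two are finite in number.

PROOF.  It is enough to show that for every `j` the set of the `T` with `T + T = 0` and `A.x T j ≠ 0` is finite (`A.exists_x_ne`).  Let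
`o = A.x (0 : A.Pts K)` and `D = A.dup X`, the vector of polynomials with `aeval y (D a) = A.dup y a` (`AV.dup`; `A.dup y a = A.s2 y y a A.b₀`,
see `VA/Mu.lean` and `AV.map_s2`, `AV.aeval_s2` in VA/A4b).  Let `J` be the ideal generated by `A.I`, `X j - 1` and the polynomials
`D a * C (o b) - D b * C (o a)`.  Claim: all zeros `y` of `J` over all fields `L` have algebraic coordinates: `y j = 1`, so `y ≠ 0`, and
`A.IsPt y`, so there is `P : A.Pts L` with `A.Rep P y` (`AV.exists_rep`), `A.dup y` represents `2 • P` (`AV.Rep.dup`), and it is proportional to the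
coordinates `algebraMap K L (o i)` of `0` (`AV.zero_rep`), so `2 • P = 0` (`AV.Rep.of_prop`, `AV.Rep.unique`).  By `Z_alg` (VA/Z2, with
`L := K`, `F := L`, `m = 2`, `Q = 0`; `A.Img` of `0` is `Z_img_zero`) the quotients `A.x P i / A.x P j` are algebraic over `K`, and they are equal to
`y i / y j = y i`.  So `M1a` gives the finiteness of the zeros of `J` in `Ω`.  A point `T` with `T + T = 0`, `A.x T j ≠ 0` gives the zero
`y i = A.x T i / A.x T j` of `J` (`dup y` represents `2 • T = 0`), and `T` is determined by `y` (`AV.Rep.unique`; `T` has the representative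
`y`). -/
theorem M1 {K : Type u} [Field K] {N : ℕ} (A : AV K N) (Ω : Type u) [Field Ω] [Algebra K Ω] :
    {T : A.Pts Ω | T + T = 0}.Finite := by
  have hfin : ∀ j : Fin (N + 1), {T : A.Pts Ω | T + T = 0 ∧ A.x T j ≠ 0}.Finite := by
    intro j
    refine Set.Finite.of_injOn (f := fun T : A.Pts Ω => fun i => A.x T i / A.x T j) ?_ ?_
      (M1a (M1_J A j) (fun L _ _ y h => M1_alg A j y h) Ω)
    · rintro T ⟨hT, hj⟩
      show ∀ f ∈ M1_J A j, aeval (fun i => A.x T i / A.x T j) f = 0
      rw [M1_iff]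
      have h1 := M1_rep A T hj
      refine ⟨h1.isPt, div_self hj, ?_⟩
      have h2 := h1.dup
      rw [two_nsmul, hT] at h2
      intro a b
      exact h2.prop (AV.zero_rep (A := A) (L := Ω)) a b
    · rintro T ⟨hT, hj⟩ T' ⟨hT', hj'⟩ h
      have h1 := M1_rep A T hj
      have h2 := M1_rep A T' hj'
      have h3 : (fun i => A.x T i / A.x T j) = fun i => A.x T' i / A.x T' j := h
      rw [← h3] at h2
      exact h1.unique h2
  refine (Set.finite_iUnion hfin).subset fun T hT => ?_
  obtain ⟨j, hj⟩ := A.exists_x_ne T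
  exact Set.mem_iUnion.2 ⟨j, hT, hj⟩

end MWA
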