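import Pool.Agent.Lib.MP_17a322_ntMW.M3B
import Pool.Agent.Lib.MP_17a322_ntMW.M1

/-!
Mordell-Weil, block M3: reduction modulo almost all primes.
-/

universe u

namespace MWA

open NumberField IsDedekindDomain
open Pool.Agent.Lib.MP_17a322_nt.VA

theorem M3 {K : Type u} [Field K] [NumberField K] {N : ℕ} (A : AV K N) {L : Type u} [Field L]
    [NumberField L] [Algebra K L] (hT : T2 A L) :
    ∃ S : Set (HeightOneSpectrum (𝓞 L)), S.Finite ∧
      ∀ (M : Type u) [Field M] [NumberField M] [Algebra K M] [Algebra L M] [IsScalarTower K L M]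
        (v : HeightOneSpectrum (𝓞 L)) (w : HeightOneSpectrum (𝓞 M)), v ∉ S →
        w.asIdeal.LiesOver v.asIdeal → ∀ σ : M ≃ₐ[L] M,
          (∀ x : 𝓞 M, w.valuation M (σ (x : M) - x) < 1) → ∀ Q : A.Pts M,
            A.img (σ.toAlgHom.restrictScalars K) Q + A.img (σ.toAlgHom.restrictScalars K) Q = Q + Q →
              A.img (σ.toAlgHom.restrictScalars K) Q = Q :=
  M3_of_fin A (M1 A L) hT

end MWA
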