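import Mathlib
import Pool.Agent.Lib.MP_17a322_nt.VJ.MW2b

/-!
Mordell-Weil for abelian varieties, block M4: Kummer theory of exponent 2.
-/

universe u

namespace MWA

open NumberField IsDedekindDomain Pool.Agent.Lib.MP_17a322_nt.VJ

/-- The ramification index is the order of the inertia group. -/
theorem M4_card_inertia {F M : Type u} [Field F] [NumberField F] [Field M] [NumberField M]
    [Algebra F M] (G : Type u) [Group G] [Finite G] [MulSemiringAction G M] [IsGaloisGroup G F M]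
    (v : HeightOneSpectrum (𝓞 F)) (w : HeightOneSpectrum (𝓞 M)) [w.asIdeal.LiesOver v.asIdeal] :
    v.asIdeal.ramificationIdx' w.asIdeal = Nat.card (w.asIdeal.inertia G) := by
  rw [Ideal.ramificationIdx'_eq_ramificationIdx v.asIdeal w.asIdeal v.ne_bot,
    ← Ideal.ramificationIdxIn_eq_ramificationIdx v.asIdeal w.asIdeal G]
  have : Finite (𝓞 F ⧸ v.asIdeal) := Ring.HasFiniteQuotients.finiteQuotient v.ne_bot
  rw [Ideal.card_inertia_eq_ramificationIdxIn v.asIdeal w.asIdeal]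

/-- If `b` is fixed by the inertia group of `w` and `b ^ 2 = a` then `v(a)` is even. -/
theorem M4_isSquare {L M : Type u} [Field L] [NumberField L] [Field M] [NumberField M]
    [Algebra L M] [IsGalois L M] (v : HeightOneSpectrum (𝓞 L)) (w : HeightOneSpectrum (𝓞 M))
    [w.asIdeal.LiesOver v.asIdeal] (b : M)
    (hb : ∀ σ : M ≃ₐ[L] M, (∀ x : 𝓞 M, w.valuation M (σ (x : M) - x) < 1) → σ b = b) (a : L)
    (hab : b ^ 2 = algebraMap L M a) : IsSquare (v.valuation L a) := by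
  classical
  let I : Subgroup (M ≃ₐ[L] M) := w.asIdeal.inertia (M ≃ₐ[L] M)
  let E : IntermediateField L M := FixedPoints.intermediateField I
  have hGal : IsGaloisGroup I E M := IsGaloisGroup.subgroup (M ≃ₐ[L] M) L M I
  have hE : NumberField E := inferInstance
  let u : HeightOneSpectrum (𝓞 E) := w.under (𝓞 E)
  have h1 : w.asIdeal.LiesOver u.asIdeal := ⟨rfl⟩
  have e0 := M4_card_inertia (M ≃ₐ[L] M) v w
  have hJ : ∀ J : Subgroup I, (∀ σ, σ ∈ J) → Nat.card J = Nat.card I := by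
    intro J hJ
    rw [(Subgroup.eq_top_iff' J).2 hJ, Subgroup.card_top]
  have e1 := (M4_card_inertia I u w).trans (hJ _ fun σ => σ.2)
  have e01 : v.asIdeal.ramificationIdx' w.asIdeal = u.asIdeal.ramificationIdx' w.asIdeal :=
    e0.trans e1.symm
  have hne : u.asIdeal.ramificationIdx' w.asIdeal ≠ 0 := by
    rw [e1]
    exact Nat.card_pos.ne'
  have hbI : ∀ σ : I, σ • b = b := by
    intro σ
    apply hb σ.1
    intro x
    have h2 : σ.1 • x - x ∈ w.asIdeal := σ.2 x
    have h3 : σ.1 (x : M) - x = algebraMap (𝓞 M) M (σ.1 • x - x) := rfl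
    rw [h3]
    exact (HeightOneSpectrum.valuation_lt_one_iff_mem w _).2 h2
  let b' : E := ⟨b, fun σ => hbI σ⟩
  have hv : v.valuation L a = u.valuation E (algebraMap L E a) := by
    have h2 := HeightOneSpectrum.valuation_liesOver M v w a
    have h3 := HeightOneSpectrum.valuation_liesOver M u w (algebraMap L E a)
    rw [← IsScalarTower.algebraMap_apply L E M, ← h2, e01] at h3
    exact (pow_left_inj₀ zero_le zero_le hne).1 h3.symm
  have hb' : b' ^ 2 = algebraMap L E a := by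
    apply Subtype.ext
    exact hab
  rw [hv, ← hb', map_pow]
  exact IsSquare.sq _

/-- The resolvent of a quadratic character. -/
theorem M4_resolvent {L M : Type u} [Field L] [Field M] [Algebra L M] [FiniteDimensional L M]
    (χ : (M ≃ₐ[L] M) →* ℤˣ) : ∃ b : M, b ≠ 0 ∧ ∀ σ : M ≃ₐ[L] M, σ b = ((χ σ : ℤ) : M) * b := by
  classical
  let f : (M ≃ₐ[L] M) → Mˣ := fun σ => Units.map (Int.castRingHom M).toMonoidHom (χ σ)
  have hf : groupCohomology.IsMulCocycle₁ f := by
    intro g h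
    apply Units.ext
    have h1 : ∀ σ, ((f σ : Mˣ) : M) = ((χ σ : ℤ) : M) := fun σ => rfl
    have h2 : ((g • f h : Mˣ) : M) = (((χ h : ℤˣ) : ℤ) : M) := map_intCast g _
    rw [Units.val_mul, h1, h1, h2, map_mul, Units.val_mul, Int.cast_mul, mul_comm]
  obtain ⟨β, hβ⟩ := groupCohomology.isMulCoboundary₁_of_isMulCocycle₁_of_aut_to_units f hf
  refine ⟨β, β.ne_zero, fun σ => ?_⟩
  have h3 : σ • β = f σ * β := div_eq_iff_eq_mul.1 (hβ σ)
  have h4 := congrArg (fun u : Mˣ => (u : M)) h3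
  exact h4

/-- Kummer theory of exponent 2: finitely many quadratic characters are unramified outside `S`. -/
theorem kummer_fin {L : Type u} [Field L] [NumberField L] (S : Set (HeightOneSpectrum (𝓞 L)))
    (hS : S.Finite) :
    ∃ F : Finset L, ∀ (M : Type u) [Field M] [NumberField M] [Algebra L M] [IsGalois L M]
      (χ : (M ≃ₐ[L] M) →* ℤˣ),
      (∀ (v : HeightOneSpectrum (𝓞 L)) (w : HeightOneSpectrum (𝓞 M)), v ∉ S →
        w.asIdeal.LiesOver v.asIdeal → ∀ σ : M ≃ₐ[L] M,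
          (∀ x : 𝓞 M, w.valuation M (σ (x : M) - x) < 1) → χ σ = 1) →
      ∃ a ∈ F, ∃ b : M, b ≠ 0 ∧ b ^ 2 = algebraMap L M a ∧
        ∀ σ : M ≃ₐ[L] M, σ b = ((χ σ : ℤ) : M) * b := by
  classical
  obtain ⟨R, hR⟩ := selmer_finite S hS
  refine ⟨R, fun M _ _ _ _ χ hχ => ?_⟩
  obtain ⟨b, hb, hσ⟩ := M4_resolvent χ
  have hb2 : ∀ σ : M ≃ₐ[L] M, σ (b ^ 2) = b ^ 2 := by
    intro σ
    rw [map_pow, hσ, mul_pow]
    have h1 : (((χ σ : ℤˣ) : ℤ) : M) ^ 2 = 1 := by
      rcases Int.units_eq_one_or (χ σ) with h | h <;> rw [h] <;> simp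
    rw [h1, one_mul]
  obtain ⟨a, ha⟩ : ∃ a : L, algebraMap L M a = b ^ 2 := by
    have h1 : b ^ 2 ∈ (⊥ : IntermediateField L M) := by
      rw [IsGalois.mem_bot_iff_fixed]
      exact hb2
    exact IntermediateField.mem_bot.1 h1
  have ha0 : a ≠ 0 := by
    rintro rfl
    rw [map_zero] at ha
    exact pow_ne_zero 2 hb ha.symm
  obtain ⟨r, hr, c, hc, hrc⟩ := hR a ha0 (by
    intro v hv
    obtain ⟨w, hw⟩ : ∃ w : HeightOneSpectrum (𝓞 M), w.asIdeal.LiesOver v.asIdeal := by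
      obtain ⟨Q⟩ := (inferInstance : Nonempty (Ideal.primesOver v.asIdeal (𝓞 M)))
      have hQ1 : Q.1.IsPrime := Q.2.1
      have hQ2 : Q.1.LiesOver v.asIdeal := Q.2.2
      exact ⟨⟨Q.1, hQ1, Ideal.ne_bot_of_liesOver_of_ne_bot v.ne_bot Q.1⟩, hQ2⟩
    apply M4_isSquare v w b _ a ha.symm
    intro σ h1
    rw [hσ, hχ v w hv hw σ h1]
    simp)
  have hcM : algebraMap L M c ≠ 0 := (map_ne_zero _).2 hc
  refine ⟨r, hr, b / algebraMap L M c, div_ne_zero hb hcM, ?_, fun σ => ?_⟩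
  · rw [div_pow, ← ha, hrc, map_mul, map_pow, mul_div_assoc, div_self (pow_ne_zero 2 hcM), mul_one]
  · rw [map_div₀, hσ, AlgEquiv.commutes, mul_div_assoc]

end MWA
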