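import Pool.Agent.Lib.MP_17a322_ntMW.W0

/-!
Mordell-Weil, leaf W3a: the Kummer homomorphism of a half point.
-/

universe u

namespace MWA

open Pool.Agent.Lib.MP_17a322_nt.VA

/-- The Kummer homomorphism.  PROOF.  Write `s σ = A.img (σ.toAlgHom.restrictScalars K)` and `i = A.img (IsScalarTower.toAlgHom K L M)`.
`s σ (i P) = i P` (`AV.img_comp`, `σ` is a homomorphism over `L`), so `s σ Q + s σ Q = s σ (Q + Q) = Q + Q` (`AV.img_add`) and
`T = s σ Q - Q` satisfies `T + T = 0`, so by `hT` there is `T₀ : A.Pts L` with `i T₀ = T`, and `T₀ + T₀ = 0` by `AV.img_injective`; `c σ = T₀`.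
Moreover `s (σ * τ) Q = s σ (s τ Q) = s σ (Q + i (c τ)) = s σ Q + i (c τ) = Q + i (c σ) + i (c τ)`, and `AV.img_injective`. -/
theorem W3a {K : Type u} [Field K] {N : ℕ} (A : AV K N) {L M : Type u} [Field L] [Algebra K L]
    (hT : T2 A L) [Field M] [Algebra K M] [Algebra L M] [IsScalarTower K L M] (P : A.Pts L)
    (Q : A.Pts M) (hQ : Q + Q = A.img (IsScalarTower.toAlgHom K L M) P) :
    ∃ c : (M ≃ₐ[L] M) → tor2 A L,
      (∀ σ : M ≃ₐ[L] M, A.img (σ.toAlgHom.restrictScalars K) Q - Q =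
        A.img (IsScalarTower.toAlgHom K L M) (c σ : A.Pts L)) ∧
      ∀ σ τ : M ≃ₐ[L] M, c (σ * τ) = c σ + c τ := by
  have he : ∀ σ : M ≃ₐ[L] M, (σ.toAlgHom.restrictScalars K).comp (IsScalarTower.toAlgHom K L M) =
      IsScalarTower.toAlgHom K L M := by
    intro σ
    ext x
    exact σ.commutes x
  have hfix : ∀ (σ : M ≃ₐ[L] M) (R : A.Pts L), A.img (σ.toAlgHom.restrictScalars K)
      (A.img (IsScalarTower.toAlgHom K L M) R) = A.img (IsScalarTower.toAlgHom K L M) R := by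
    intro σ R
    rw [← AV.img_comp, he]
  have hc : ∀ σ : M ≃ₐ[L] M, ∃ T : tor2 A L, A.img (σ.toAlgHom.restrictScalars K) Q - Q =
      A.img (IsScalarTower.toAlgHom K L M) (T : A.Pts L) := by
    intro σ
    have h1 : (A.img (σ.toAlgHom.restrictScalars K) Q - Q) +
        (A.img (σ.toAlgHom.restrictScalars K) Q - Q) = 0 := by
      rw [sub_add_sub_comm, ← AV.img_add, hQ, hfix, sub_self]
    obtain ⟨T₀, h2⟩ := hT M _ h1
    have h3 : T₀ + T₀ = 0 := by
      apply AV.img_injective (IsScalarTower.toAlgHom K L M)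
      rw [AV.img_add, h2, h1, AV.img_zero]
    exact ⟨⟨T₀, h3⟩, h2.symm⟩
  choose c hc using hc
  refine ⟨c, hc, fun σ τ => ?_⟩
  apply Subtype.ext
  apply AV.img_injective (IsScalarTower.toAlgHom K L M)
  have hmul : A.img ((σ * τ).toAlgHom.restrictScalars K) Q =
      A.img (σ.toAlgHom.restrictScalars K) (A.img (τ.toAlgHom.restrictScalars K) Q) := by
    rw [← AV.img_comp]
    rfl
  have h4 : A.img (τ.toAlgHom.restrictScalars K) Q =
      Q + A.img (IsScalarTower.toAlgHom K L M) (c τ : A.Pts L) := by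
    rw [← hc τ]
    abel
  rw [← hc (σ * τ), AddSubgroup.coe_add, AV.img_add, ← hc σ, hmul, h4, AV.img_add, hfix]
  abel

end MWA
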