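import Pool.Agent.Lib.MP_17a322_ntMW.W2
import Pool.Agent.Lib.MP_17a322_ntMW.W3a
import Pool.Agent.Lib.MP_17a322_ntMW.M3
import Pool.Agent.Lib.MP_17a322_ntMW.M4

/-!
Mordell-Weil, leaf W3: finitely many Kummer characters.
-/

universe u

namespace MWA

open NumberField IsDedekindDomain
open Pool.Agent.Lib.MP_17a322_nt.VA

/-- Finitely many Kummer characters.

PROOF.  `S` from `M3 A hT`, `F` from `kummer_fin S`.  Let `Ω = AlgebraicClosure L` and `Q`, `P`, `lam` be given.  `W2` gives a field `M` between `L` and `Ω`,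
finite and Galois over `L`, and `Q₀ : A.Pts M` with image `Q`; `M` is a number field (characteristic zero: `charZero_of_injective_algebraMap`, finite over `ℚ`:
`Module.Finite.trans L M`, with the scalar tower `ℚ L M`); `Q₀ + Q₀ = A.img P` (`AV.img_injective`, `AV.img_comp`).
`W3a` for `Q₀` gives `c : (M ≃ₐ[L] M) → tor2 A L`.  Let `χ σ = 1` if `lam (c σ) = 0` and `χ σ = -1` otherwise; it is a homomorphism to `ℤˣ`
(`lam (c (σ * τ)) = lam (c σ) + lam (c τ)` in `ZMod 2`, four cases; `c 1 = 0`).  The hypothesis of `kummer_fin`: if `σ` is trivial modulo `w`, then with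
`s = A.img (σ.toAlgHom.restrictScalars K)` one has `s Q₀ + s Q₀ = Q₀ + Q₀` (`s Q₀ = Q₀ + i (c σ)`, `c σ + c σ = 0`), so `s Q₀ = Q₀` by `M3`, so
`i (c σ) = 0`, `c σ = 0` (`AV.img_injective`, `AV.img_zero`), `χ σ = 1`.  So there are `a ∈ F` and `b₀ ∈ M`, `b₀ ≠ 0`, `b₀ ^ 2 = a`,
`σ b₀ = χ σ b₀`.  Let `b = (b₀ : Ω)`.  Let `σ : Ω ≃ₐ[L] Ω` and `T` with `A.img σ Q - Q = A.img T`; let `τ = σ.restrictNormal M`
(`AlgEquiv.restrictNormal_commutes`; `M` is normal over `L`).  Then `A.img σ Q = A.img (M → Ω) (A.img τ Q₀)` (`AV.img_comp`), so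
`A.img (L → Ω) T = A.img (L → Ω) (c τ)`, `T = c τ`, and `σ b = (τ b₀ : Ω) = χ τ b`, which is the claim. -/
theorem W3 {K : Type u} [Field K] [NumberField K] {N : ℕ} (A : AV K N) {L : Type u} [Field L]
    [NumberField L] [Algebra K L] (hT : T2 A L) :
    ∃ F : Finset L, ∀ (Q : A.Pts (AlgebraicClosure L)) (P : A.Pts L),
      Q + Q = A.img (IsScalarTower.toAlgHom K L (AlgebraicClosure L)) P →
      ∀ lam : tor2 A L →+ ZMod 2, ∃ a ∈ F, ∃ b : AlgebraicClosure L, b ≠ 0 ∧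
        b ^ 2 = algebraMap L (AlgebraicClosure L) a ∧
        ∀ (σ : AlgebraicClosure L ≃ₐ[L] AlgebraicClosure L) (T : tor2 A L),
          A.img (σ.toAlgHom.restrictScalars K) Q - Q =
            A.img (IsScalarTower.toAlgHom K L (AlgebraicClosure L)) (T : A.Pts L) →
          (lam T = 0 → σ b = b) ∧ (lam T ≠ 0 → σ b = -b) := by
  classical
  obtain ⟨S, hS, hM3⟩ := M3 A hT
  obtain ⟨F, hF⟩ := kummer_fin S hS
  refine ⟨F, fun Q P hQP lam => ?_⟩
  obtain ⟨M, iM, iKM, iLM, iMΩ, iKLM, iKMΩ, iLMΩ, hfin, hgal, Q₀, hQ₀⟩ :=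
    W2 A (L := L) (Ω := AlgebraicClosure L) Q
  have hch : CharZero M := charZero_of_injective_algebraMap (algebraMap L M).injective
  have hfinQ : FiniteDimensional ℚ M := Module.Finite.trans L M
  have hnf : NumberField M := ⟨⟩
  obtain ⟨j, hj⟩ : ∃ j : M →ₐ[K] AlgebraicClosure L, j = IsScalarTower.toAlgHom K M (AlgebraicClosure L) := ⟨_, rfl⟩
  obtain ⟨i, hi⟩ : ∃ i : L →ₐ[K] M, i = IsScalarTower.toAlgHom K L M := ⟨_, rfl⟩
  have hjx : ∀ x, j x = algebraMap M (AlgebraicClosure L) x := fun x => by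
    rw [hj]
    rfl
  have hji : j.comp i = IsScalarTower.toAlgHom K L (AlgebraicClosure L) := by
    ext x
    rw [hj, hi]
    exact (IsScalarTower.algebraMap_apply L M (AlgebraicClosure L) x).symm
  rw [← hj] at hQ₀
  have h2 : Q₀ + Q₀ = A.img i P := by
    apply AV.img_injective j
    rw [AV.img_add, hQ₀, hQP, ← AV.img_comp, hji]
  have h2' := h2
  rw [hi] at h2'
  obtain ⟨c, hc, hcm⟩ := W3a A hT P Q₀ h2'
  rw [← hi] at hc
  have hc1 : c 1 = 0 := by
    have h3 := hcm 1 1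
    rw [mul_one] at h3
    exact left_eq_add.mp h3
  have hz : ∀ a b : ZMod 2, (if a + b = 0 then (1 : ℤˣ) else -1) =
      (if a = 0 then 1 else -1) * (if b = 0 then 1 else -1) := by decide
  let χ : (M ≃ₐ[L] M) →* ℤˣ :=
    { toFun := fun σ => if lam (c σ) = 0 then 1 else -1
      map_one' := by
        rw [hc1, map_zero, if_pos rfl]
      map_mul' := fun σ τ => by
        rw [hcm, map_add]
        exact hz _ _ }
  have hχ1 : ∀ σ, lam (c σ) = 0 → χ σ = 1 := fun σ h => if_pos h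
  have hχ2 : ∀ σ, lam (c σ) ≠ 0 → χ σ = -1 := fun σ h => if_neg h
  have hker : ∀ σ : M ≃ₐ[L] M, A.img i (c σ : A.Pts L) = 0 → c σ = 0 := by
    intro σ h
    rw [← AV.img_zero (A := A) i] at h
    exact Subtype.ext (AV.img_injective i h)
  obtain ⟨a, ha, b₀, hb₀, hb2, hχb⟩ := hF M χ fun v w hv hw σ hσ => by
    have h3 := hc σ
    have h4 : A.img (σ.toAlgHom.restrictScalars K) Q₀ = A.img i (c σ : A.Pts L) + Q₀ := by
      rw [← h3, sub_add_cancel]
    have h5 : A.img i (c σ : A.Pts L) + A.img i (c σ : A.Pts L) = 0 := by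
      rw [← AV.img_add, (mem_tor2 A _).mp (c σ).2, AV.img_zero]
    have h6 : A.img (σ.toAlgHom.restrictScalars K) Q₀ + A.img (σ.toAlgHom.restrictScalars K) Q₀ = Q₀ + Q₀ := by
      rw [h4, add_add_add_comm, h5, zero_add]
    have h7 := hM3 M v w hv hw σ hσ Q₀ h6
    rw [h7, sub_self] at h3
    apply hχ1
    rw [hker σ h3.symm, map_zero]
  refine ⟨a, ha, j b₀, ?_, ?_, fun σ T hT' => ?_⟩
  · exact (map_ne_zero j).mpr hb₀
  · rw [← map_pow, hb2, hjx, ← IsScalarTower.algebraMap_apply L M (AlgebraicClosure L)]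
  · obtain ⟨τ, hτ⟩ : ∃ τ : M ≃ₐ[L] M, ∀ x, j (τ x) = σ (j x) := by
      refine ⟨σ.restrictNormal M, fun x => ?_⟩
      rw [hjx, hjx]
      exact AlgEquiv.restrictNormal_commutes σ M x
    have h5 : A.img (σ.toAlgHom.restrictScalars K) Q = A.img j (A.img (τ.toAlgHom.restrictScalars K) Q₀) := by
      rw [← hQ₀, ← AV.img_comp, ← AV.img_comp]
      congr 1
      ext x
      exact (hτ x).symm
    have h6 : (T : A.Pts L) = (c τ : A.Pts L) := by
      apply AV.img_injective (IsScalarTower.toAlgHom K L (AlgebraicClosure L))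
      rw [← hT', h5, ← hji, AV.img_comp, ← hc τ, AV.img_sub, hQ₀]
    have h7 : T = c τ := Subtype.ext h6
    have h8 : σ (j b₀) = j (((χ τ : ℤ) : M) * b₀) := by
      rw [← hτ, hχb τ]
    rw [h7, h8]
    constructor
    · intro h9
      rw [hχ1 τ h9]
      simp
    · intro h9
      rw [hχ2 τ h9]
      simp

end MWA
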