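import Pool.Agent.Lib.MP_17a322_nt.VA.A3b

/-!
Mordell-Weil, leaf W1: a point fixed by the Galois group is rational.
-/

universe u

namespace MWA

open Pool.Agent.Lib.MP_17a322_nt.VA

/-- A point fixed by the Galois group is rational.  PROOF.  Choose `j` with `A.x P j ≠ 0`, `y i = A.x P i / A.x P j`.  By hypothesis and `AV.img_rep`,
`σ (A.x P i) = c * A.x P i` for all `i`, so `σ (y i) = y i` for all `σ`, so `y i` is in the range of `algebraMap L Ω`
(`InfiniteGalois.mem_range_algebraMap_iff_fixed`); let `y i = algebraMap L Ω (z i)`.  `A.IsPt y`, so `A.IsPt z` (`AV.IsPt.of_injective` with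
`IsScalarTower.toAlgHom K L Ω`), `z j = 1`, so `z ≠ 0`, and `AV.exists_rep` gives `P₀` with `A.Rep P₀ z`; `AV.Rep.img`, `AV.Rep.unique`. -/
theorem W1 {K : Type u} [Field K] {N : ℕ} (A : AV K N) {L Ω : Type u} [Field L] [Field Ω]
    [Algebra K L] [Algebra K Ω] [Algebra L Ω] [IsScalarTower K L Ω] [IsGalois L Ω] (P : A.Pts Ω)
    (h : ∀ σ : Ω ≃ₐ[L] Ω, A.img (σ.toAlgHom.restrictScalars K) P = P) :
    ∃ P₀ : A.Pts L, A.img (IsScalarTower.toAlgHom K L Ω) P₀ = P := by
  obtain ⟨j, hj⟩ := A.exists_x_ne P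
  have hfix : ∀ (i : Fin (N + 1)) (σ : Ω ≃ₐ[L] Ω), σ (A.x P i / A.x P j) = A.x P i / A.x P j := by
    intro i σ
    have h1 := A.img_rep (σ.toAlgHom.restrictScalars K) P
    rw [h σ] at h1
    obtain ⟨c, hc, h2⟩ := h1
    have h3 : ∀ i, σ (A.x P i) = c * A.x P i := h2
    rw [map_div₀, h3, h3, mul_div_mul_left _ _ hc]
  have hz0 : ∀ i, ∃ z : L, algebraMap L Ω z = A.x P i / A.x P j := fun i =>
    (InfiniteGalois.mem_range_algebraMap_iff_fixed (k := L) (K := Ω) _).2 (hfix i)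
  choose z hz using hz0
  have hrep : A.Rep P fun i => (A.x P j)⁻¹ * A.x P i := (AV.Rep.self P).smul (inv_ne_zero hj)
  have hzy : (fun i => (IsScalarTower.toAlgHom K L Ω) (z i)) = fun i => (A.x P j)⁻¹ * A.x P i := by
    funext i
    have h4 : (IsScalarTower.toAlgHom K L Ω) (z i) = algebraMap L Ω (z i) := rfl
    rw [h4, hz, div_eq_inv_mul]
  have hpt : A.IsPt z := by
    refine AV.IsPt.of_injective (IsScalarTower.toAlgHom K L Ω) (algebraMap L Ω).injective ?_
    rw [hzy]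
    exact hrep.isPt
  have hzne : z ≠ 0 := by
    intro h0
    have h5 := hz j
    rw [h0, Pi.zero_apply, map_zero, div_self hj] at h5
    exact zero_ne_one h5
  obtain ⟨P₀, hP₀⟩ := AV.exists_rep hzne hpt
  refine ⟨P₀, ?_⟩
  have h6 := AV.Rep.img (IsScalarTower.toAlgHom K L Ω) hP₀
  rw [hzy] at h6
  exact h6.unique hrep

end MWA
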