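import Pool.Agent.Lib.MP_17a322_ntMW.W0
import Pool.Agent.Lib.MP_17a322_ntMW.W1
import Pool.Agent.Lib.MP_17a322_ntMW.W3a

/-!
Mordell-Weil, leaf W4a: equal Kummer characters.
-/

universe u

namespace MWA

open Pool.Agent.Lib.MP_17a322_nt.VA

private theorem W4a_two {F : Type u} [Field F] [CharZero F] {b : F} (h : b = -b) : b = 0 := by
  have h1 : (2 : F) * b = 0 := by linear_combination h
  exact (mul_eq_zero.1 h1).resolve_left two_ne_zero

private theorem W4a_zmod : ∀ x y : ZMod 2, x ≠ y → x ≠ 0 → y = 0 := by decide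

/-- The characters of an elementary abelian `2`-group separate the elements.  PROOF.  `G` is a vector space over `ZMod 2`
(`AddCommGroup.zmodModule`), and `Module.forall_dual_apply_eq_zero_iff (ZMod 2) (t - t')`. -/
theorem sep {G : Type u} [AddCommGroup G] (hG : ∀ t : G, t + t = 0) {t t' : G} (h : t ≠ t') :
    ∃ lam : G →+ ZMod 2, lam t ≠ lam t' := by
  let _ : Module (ZMod 2) G := AddCommGroup.zmodModule (fun t => by rw [two_nsmul]; exact hG t)
  by_contra hcon
  push Not at hcon
  have h1 : ∀ φ : Module.Dual (ZMod 2) G, φ (t - t') = 0 := fun φ => by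
    rw [map_sub, sub_eq_zero]
    exact hcon φ.toAddMonoidHom
  exact h (sub_eq_zero.1 ((Module.forall_dual_apply_eq_zero_iff (ZMod 2) (t - t')).1 h1))

/-- Points with the same Kummer characters differ by the double of a rational point.

PROOF.  `Ω = AlgebraicClosure L`, `i = A.img (IsScalarTower.toAlgHom K L Ω)`, `s σ = A.img (σ.toAlgHom.restrictScalars K)`.  Let `c`, `c'` be the functions of
`W3a` (with `M = Ω`) for `Q` and `Q'`.  Claim: `c σ = c' σ` for all `σ`.  Otherwise `sep` (for the group `tor2 A L`) gives `lam` with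
`lam (c σ) ≠ lam (c' σ)`.  Take `a`, `b`, `b'` from `h lam`.  `b ^ 2 = b' ^ 2`, so `b' = b` or `b' = - b`
(`sq_eq_sq_iff_eq_or_eq_neg`).  One of the two values of `lam` is `0` and the other is not; say `lam (c σ) = 0`, `lam (c' σ) ≠ 0`:
`σ b = b` and `σ b' = - b'`, so in both cases `b' = - b'`, `b' = 0` (characteristic zero), `b = 0`, contradiction (the other case is the same).
So `s σ Q - Q = s σ Q' - Q'` and `R₁ = Q - Q'` is fixed by all `s σ` (`AV.img_sub`).  By `W1` there is `R` with `i R = R₁`, and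
`i (R + R) = (Q + Q) - (Q' + Q') = i (P - P')` (`AV.img_add`, `AV.img_sub`), so `P - P' = R + R` (`AV.img_injective`). -/
theorem W4a {K : Type u} [Field K] {N : ℕ} (A : AV K N) {L : Type u} [Field L] [NumberField L]
    [Algebra K L] (hT : T2 A L) {P P' : A.Pts L} {Q Q' : A.Pts (AlgebraicClosure L)}
    (hQ : Q + Q = A.img (IsScalarTower.toAlgHom K L (AlgebraicClosure L)) P)
    (hQ' : Q' + Q' = A.img (IsScalarTower.toAlgHom K L (AlgebraicClosure L)) P')
    (h : ∀ lam : tor2 A L →+ ZMod 2, ∃ (a : L) (b b' : AlgebraicClosure L), b ≠ 0 ∧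
      b ^ 2 = algebraMap L (AlgebraicClosure L) a ∧ b' ^ 2 = algebraMap L (AlgebraicClosure L) a ∧
      (∀ (σ : AlgebraicClosure L ≃ₐ[L] AlgebraicClosure L) (T : tor2 A L),
          A.img (σ.toAlgHom.restrictScalars K) Q - Q =
            A.img (IsScalarTower.toAlgHom K L (AlgebraicClosure L)) (T : A.Pts L) →
          (lam T = 0 → σ b = b) ∧ (lam T ≠ 0 → σ b = -b)) ∧
      ∀ (σ : AlgebraicClosure L ≃ₐ[L] AlgebraicClosure L) (T : tor2 A L),
          A.img (σ.toAlgHom.restrictScalars K) Q' - Q' =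
            A.img (IsScalarTower.toAlgHom K L (AlgebraicClosure L)) (T : A.Pts L) →
          (lam T = 0 → σ b' = b') ∧ (lam T ≠ 0 → σ b' = -b')) :
    ∃ R : A.Pts L, P - P' = R + R := by
  obtain ⟨c, hc, -⟩ := W3a A hT P Q hQ
  obtain ⟨c', hc', -⟩ := W3a A hT P' Q' hQ'
  have key : ∀ σ, c σ = c' σ := by
    intro σ
    by_contra hne
    obtain ⟨lam, hlam⟩ := sep (G := tor2 A L) (fun t => Subtype.ext t.2) hne
    obtain ⟨a, b, b', hb0, hb, hb', h1, h2⟩ := h lam
    have g1 := h1 σ (c σ) (hc σ)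
    have g2 := h2 σ (c' σ) (hc' σ)
    have hbb : b' = b ∨ b' = -b := sq_eq_sq_iff_eq_or_eq_neg.1 (hb'.trans hb.symm)
    apply hb0
    by_cases z : lam (c σ) = 0
    · have e1 := g1.1 z
      have e2 := g2.2 (fun h0 => hlam (z.trans h0.symm))
      rcases hbb with hbb | hbb
      · rw [hbb] at e2
        exact W4a_two (e1.symm.trans e2)
      · rw [hbb, map_neg, neg_neg] at e2
        rw [e1] at e2
        exact W4a_two e2.symm
    · have e1 := g1.2 z
      have e2 := g2.1 (W4a_zmod _ _ hlam z)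
      rcases hbb with hbb | hbb
      · rw [hbb] at e2
        exact W4a_two (e2.symm.trans e1)
      · rw [hbb, map_neg, neg_inj] at e2
        exact W4a_two (e2.symm.trans e1)
  obtain ⟨R, hR⟩ := W1 A (Q - Q') (fun σ => by
    have h1 := hc σ
    have h2 := hc' σ
    rw [← key σ] at h2
    have h3 := h1.trans h2.symm
    rw [AV.img_sub]
    have h4 : A.img (σ.toAlgHom.restrictScalars K) Q - A.img (σ.toAlgHom.restrictScalars K) Q' =
        (A.img (σ.toAlgHom.restrictScalars K) Q - Q) -
          (A.img (σ.toAlgHom.restrictScalars K) Q' - Q') + (Q - Q') := by abel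
    rw [h4, h3, sub_self, zero_add])
  refine ⟨R, AV.img_injective (IsScalarTower.toAlgHom K L (AlgebraicClosure L)) ?_⟩
  rw [AV.img_sub, AV.img_add, ← hQ, ← hQ', hR]
  abel

end MWA
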