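import Mathlib

/-!
Mordell-Weil, leaf W4b: a criterion for finite index.
-/

universe u v

namespace MWA

/-- PROOF.  The map `G ⧸ H → Set ι`, or simply: choose for every element of the range of `f` a preimage; every `x` differs from one of these finitely many
elements by an element of `H = (nsmulAddMonoidHom 2).range`, so `G ⧸ H` is finite (the finite set of their classes is everything;
`Set.Finite`, `Finite.of_surjective`), `AddSubgroup.finiteIndex_of_finite_quotient`. -/
theorem W4b {G : Type u} [AddCommGroup G] {ι : Type v} [Finite ι] (f : G → ι)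
    (h : ∀ x y, f x = f y → ∃ r, x - y = r + r) :
    (nsmulAddMonoidHom (α := G) 2).range.FiniteIndex := by
  have hfin : Finite (G ⧸ (nsmulAddMonoidHom (α := G) 2).range) := by
    refine Finite.of_injective
      (fun q : G ⧸ (nsmulAddMonoidHom (α := G) 2).range => f (Quotient.out q)) ?_
    intro q q' hq
    obtain ⟨r, hr⟩ := h _ _ hq
    rw [← QuotientAddGroup.out_eq' q, ← QuotientAddGroup.out_eq' q', eq_comm,
      QuotientAddGroup.eq]
    refine ⟨r, ?_⟩
    rw [nsmulAddMonoidHom_apply, two_nsmul, ← hr]
    exact sub_eq_neg_add _ _
  exact AddSubgroup.finiteIndex_of_finite_quotient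

end MWA
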