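import Pool.Agent.Lib.MP_17a322_nt.VA.A6

/-!
Mordell-Weil, leaf W5: Northcott for the points over a number field.
-/

universe u

namespace MWA

open Height
open Pool.Agent.Lib.MP_17a322_nt.VA

/-- Northcott's theorem.  PROOF.  Copy of `UVB.P2a` (`Pool/Agent/Lib/MP_17a322_ntU2/P2a.lean`, in the archive) with `L` in place of `K`. -/
theorem W5 {K : Type u} [Field K] {N : ℕ} (A : AV K N) {L : Type u} [Field L] [NumberField L]
    [Algebra K L] (T : ℝ) : {P : A.Pts L | logHeight (A.x P) ≤ T}.Finite := by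
  classical
  have hT : {c : L | logHeight₁ c ≤ T}.Finite := Northcott.finite_le (h := logHeight₁ (K := L)) T
  have hone : ∀ j : Fin (N + 1), {P : A.Pts L | A.x P j ≠ 0 ∧ logHeight (A.x P) ≤ T}.Finite := by
    intro j
    refine Set.Finite.of_finite_image (f := fun P i => A.x P i / A.x P j) ?_ ?_
    · refine (Set.Finite.pi' fun _ : Fin (N + 1) => hT).subset ?_
      rintro _ ⟨P, hP, rfl⟩ i
      show logHeight₁ (A.x P i / A.x P j) ≤ T
      rw [logHeight₁_div_eq_logHeight]
      have h1 : ![A.x P i, A.x P j] = A.x P ∘ ![i, j] := by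
        funext a
        fin_cases a <;> rfl
      rw [h1]
      exact (logHeight_comp_le _ _).trans hP.2
    · intro P hP Q hQ h
      have h2 : ∀ i, A.x P i / A.x P j = A.x Q i / A.x Q j := fun i => congrFun h i
      refine AV.Rep.unique (y := fun i => A.x P i / A.x P j)
        ⟨(A.x P j)⁻¹, inv_ne_zero hP.1, fun i => ?_⟩ ⟨(A.x Q j)⁻¹, inv_ne_zero hQ.1, fun i => ?_⟩
      · show A.x P i / A.x P j = (A.x P j)⁻¹ * A.x P i
        rw [div_eq_mul_inv, mul_comm]
      · show A.x P i / A.x P j = (A.x Q j)⁻¹ * A.x Q i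
        rw [h2 i, div_eq_mul_inv, mul_comm]
  refine (Set.finite_iUnion hone).subset ?_
  intro P hP
  obtain ⟨j, hj⟩ := A.exists_x_ne P
  exact Set.mem_iUnion.2 ⟨j, hj, hP⟩

end MWA
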