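import Pool.Agent.Lib.MP_17a322_ntMW.M1b
import Pool.Agent.Lib.MP_17a322_ntMW.M2
import Pool.Agent.Lib.MP_17a322_ntMW.W3
import Pool.Agent.Lib.MP_17a322_ntMW.W4a
import Pool.Agent.Lib.MP_17a322_ntMW.W4b
import Pool.Agent.Lib.MP_17a322_ntMW.W5

/-!
The Mordell-Weil theorem for abelian varieties.
-/

universe u

namespace MWA

open Height
open Pool.Agent.Lib.MP_17a322_nt.VA

/-- Every point has a half point over the algebraic closure. -/
theorem half {K : Type u} [Field K] [NumberField K] {N : ℕ} (A : AV K N) {L : Type u} [Field L]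
    [NumberField L] [Algebra K L] (P : A.Pts L) :
    ∃ Q : A.Pts (AlgebraicClosure L),
      Q + Q = A.img (IsScalarTower.toAlgHom K L (AlgebraicClosure L)) P := by
  obtain ⟨M, _, _, _, _, _, Q, hQ⟩ := M2 A P
  have : Algebra.IsAlgebraic L M := Algebra.IsAlgebraic.tower_top (K := ℚ) L
  let ι : M →ₐ[L] AlgebraicClosure L := IsAlgClosed.lift
  refine ⟨A.img (ι.restrictScalars K) Q, ?_⟩
  rw [← AV.img_add, hQ, ← AV.img_comp]
  congr 1
  exact AlgHom.ext fun x => ι.commutes x

/-- The weak Mordell-Weil theorem. -/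
theorem weak {K : Type u} [Field K] [NumberField K] {N : ℕ} (A : AV K N) {L : Type u} [Field L]
    [NumberField L] [Algebra K L] (hT : T2 A L) :
    (nsmulAddMonoidHom (α := A.Pts L) 2).range.FiniteIndex := by
  classical
  obtain ⟨F, hF⟩ := W3 A hT
  choose Q hQ using fun P : A.Pts L => half A P
  have h1 : ∀ (P : A.Pts L) (lam : tor2 A L →+ ZMod 2), ∃ a : F, ∃ b : AlgebraicClosure L, b ≠ 0 ∧
        b ^ 2 = algebraMap L (AlgebraicClosure L) a ∧
        ∀ (σ : AlgebraicClosure L ≃ₐ[L] AlgebraicClosure L) (T : tor2 A L),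
          A.img (σ.toAlgHom.restrictScalars K) (Q P) - Q P =
            A.img (IsScalarTower.toAlgHom K L (AlgebraicClosure L)) (T : A.Pts L) →
          (lam T = 0 → σ b = b) ∧ (lam T ≠ 0 → σ b = -b) := by
    intro P lam
    obtain ⟨a, ha, b, h⟩ := hF (Q P) P (hQ P) lam
    exact ⟨⟨a, ha⟩, b, h⟩
  choose f b hb0 hb hbs using h1
  have hfin : Finite (tor2 A L) := (M1 A L).to_subtype
  have hfin2 : Finite (tor2 A L →+ ZMod 2) := DFunLike.finite _
  refine W4b f fun x y hxy => ?_
  refine W4a A hT (hQ x) (hQ y) fun lam => ?_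
  refine ⟨f x lam, b x lam, b y lam, hb0 x lam, hb x lam, ?_, hbs x lam, hbs y lam⟩
  rw [hxy]
  exact hb y lam

/-- The Mordell-Weil theorem over a field which contains the points of order two. -/
theorem MWL {K : Type u} [Field K] [NumberField K] {N : ℕ} (A : AV K N) {L : Type u} [Field L]
    [NumberField L] [Algebra K L] (hT : T2 A L) : AddGroup.FG (A.Pts L) := by
  obtain ⟨C, -, hC⟩ := A.parallelogram
  have hN : Northcott fun P : A.Pts L => logHeight (A.x P) := ⟨fun b => W5 A b⟩
  refine AddCommGroup.fg_of_descent' (h := fun P : A.Pts L => logHeight (A.x P))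
    (C := C * Module.finrank ℚ L) (weak A hT) (fun P => AV.h_nonneg P) fun P Q => ?_
  have h1 := hC L P Q
  have h2 : logHeight (A.x (P + Q)) + logHeight (A.x (P - Q)) -
      2 * (logHeight (A.x P) + logHeight (A.x Q)) =
      A.h (P + Q) + A.h (P - Q) - 2 * A.h P - 2 * A.h Q := by
    unfold AV.h
    ring
  rw [h2]
  exact h1

/-- The Mordell-Weil theorem. -/
theorem MW {K : Type u} [Field K] [NumberField K] {N : ℕ} (A : AV K N) :
    (⊤ : AddSubgroup (A.Pts K)).FG := by
  obtain ⟨L, _, _, _, hT⟩ := M1b A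
  have h1 : AddGroup.FG (A.Pts L) := MWL A hT
  have h2 : Module.Finite ℤ (A.Pts L) := Module.Finite.iff_addGroup_fg.2 h1
  have h3 : Module.Finite ℤ (A.Pts K) :=
    Module.Finite.of_injective (A.imgHom (Algebra.ofId K L)).toIntLinearMap
      (AV.img_injective (Algebra.ofId K L))
  exact (Module.Finite.iff_addGroup_fg.1 h3).out

end MWA
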