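import Pool.Agent.Lib.MP_17a322_nt.VA.A6

/-!
The Mordell-Weil theorem for abelian varieties: the 2-torsion.
-/

universe u

namespace MWA

open Pool.Agent.Lib.MP_17a322_nt.VA

/-- All points of order two over all extension fields of `L` have coordinates in `L`. -/
def T2 {K : Type u} [Field K] {N : ℕ} (A : AV K N) (L : Type u) [Field L] [Algebra K L] : Prop :=
  ∀ (M : Type u) [Field M] [Algebra K M] [Algebra L M] [IsScalarTower K L M] (T : A.Pts M),
    T + T = 0 → ∃ T₀ : A.Pts L, A.img (IsScalarTower.toAlgHom K L M) T₀ = T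

end MWA
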