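import Pool.Agent.Lib.MP_17a322_nt.VA.N5
import Pool.Agent.Lib.MP_17a322_nt.VA.Z7

/-!
Mordell-Weil, leaf D1: a point of maximal transcendence degree is generic.
-/

universe u

namespace MWA

open MvPolynomial
open Pool.Agent.Lib.MP_17a322_nt.VA

/-- The algebraic relation of an element with a nonzero constant term. -/
private theorem D1_rel {K F : Type*} [Field K] [Field F] [Algebra K F] {κ : Type*} (g : κ → F) {γ : F}
    (hγ : γ ≠ 0) (h : IsAlgebraic (Algebra.adjoin K (Set.range g)) γ) :
    ∃ (n : ℕ) (P : ℕ → MvPolynomial κ K), aeval g (P 0) ≠ 0 ∧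
      ∑ i ∈ Finset.range (n + 1), aeval g (P i) * γ ^ i = 0 := by
  obtain ⟨q, hq0, hq⟩ := h.exists_nonzero_coeff_and_aeval_eq_zero (mem_nonZeroDivisors_of_ne_zero hγ)
  have hc : ∀ i : ℕ, ∃ P : MvPolynomial κ K, aeval g P = ((q.coeff i : Algebra.adjoin K (Set.range g)) : F) := by
    intro i
    obtain ⟨z, hz⟩ : ∃ z : F, z = ((q.coeff i : Algebra.adjoin K (Set.range g)) : F) := ⟨_, rfl⟩
    have h1 : z ∈ Algebra.adjoin K (Set.range g) := hz ▸ (q.coeff i).2
    rw [← hz]
    rw [Algebra.adjoin_range_eq_range_aeval] at h1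
    exact h1
  choose P hP using hc
  refine ⟨q.natDegree, P, ?_, ?_⟩
  · rw [hP]
    intro h0
    exact hq0 (Subtype.ext h0)
  · rw [← hq, Polynomial.aeval_eq_sum_range]
    refine Finset.sum_congr rfl fun i _ => ?_
    rw [hP, Algebra.smul_def]
    rfl

/-- DIMENSION.  A point of maximal transcendence degree is generic.

PROOF.  Suppose `G (p) = 0`, `G ∉ A.I` homogeneous of degree `D`.  Choose `j` with `x_j (p) ≠ 0`; then `X j ∉ A.I`, so `A.gp j ≠ 0` (`AV.gp_zero_iff`).  Let `l = Pi.single j 1`
(`lf_single`), `g = A.ga l` (`g a = A.gp a / A.gp j`), `y a = x_a (p) / x_j (p)`.  By `AV.transfer` (VA/N1): every `f` with `aeval g f = 0` satisfies `aeval y f = 0`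
(`y` is a point with `lf l y = 1`).  As in UVB.B5a (or by `Z_exists_basis` for `A.x p` and the fact that the field is generated by the `y a`) there are indices
`I : Fin n → Fin (N + 1)` with `n = tdeg K (A.x p)` (finite: `Z_exists_basis`) such that the `y (I k)` are algebraically independent.  Then the `g (I k)` are algebraically independent
(a relation of the `g (I k)` holds for the `y (I k)`, `AV.transfer`), and since `tdeg K (A.gp) ≤ n` (the point of `A` over `A.FF` given by `A.gp`, `AV.exists_rep`, and `hp`) all elements of the field generated by the `g a` are algebraic over the field generated by the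
`g (I k)` (a transcendence basis: `n` independent elements in a field of transcendence degree `≤ n`).  Let `γ = aeval g G`; `γ ≠ 0` (`G ∉ A.I`, homogeneity:
`aeval A.gp G = A.gp j ^ D * aeval g G`).  So there is a polynomial relation `∑_i a_i (g (I ·)) γ ^ i = 0` with `a_i ∈ K[T_1, .., T_n]`, not all zero, and after dividing by a power of `γ ≠ 0`,
`a_0 ≠ 0`.  The polynomial `f = ∑_i a_i (X (I ·)) G ^ i ∈ K[X]` has `aeval g f = 0`, so `aeval y f = 0`; but `aeval y G = 0` (homogeneity, `G (p) = 0`), so `a_0 (y (I ·)) = 0`, a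
contradiction to the independence of the `y (I k)`. -/
theorem D1 {K : Type u} [Field K] {N : ℕ} (A : AV K N) {L : Type u} [Field L] [Algebra K L]
    (p : A.Pts L) (hp : ∀ (L' : Type u) [Field L'] [Algebra K L'] (q : A.Pts L'),
      tdeg K (A.x q) ≤ tdeg K (A.x p)) (G : MvPolynomial (Fin (N + 1)) K) (D : ℕ)
    (hG : G.IsHomogeneous D) (hGA : G ∉ A.I) : aeval (A.x p) G ≠ 0 := by
  classical
  intro hGp
  obtain ⟨j, hj⟩ := A.exists_x_ne p
  obtain ⟨l, hl⟩ : ∃ l : Fin (N + 1) → K, l = Pi.single j 1 := ⟨_, rfl⟩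
  have hlf : ∀ {R : Type u} [CommRing R] [Algebra K R] (x : Fin (N + 1) → R), lf l x = x j := by
    intro R _ _ x
    rw [hl, lf_single]
  have hgpj : A.gp j ≠ 0 := by
    intro h0
    have h1 : (X j : MvPolynomial (Fin (N + 1)) K) ∈ A.I := by
      rw [← A.gp_zero_iff, aeval_X]
      exact h0
    have h2 := A.x_isPt p (X j) h1
    rw [aeval_X] at h2
    exact hj h2
  have hlgp : lf l A.gp ≠ 0 := by
    rw [hlf]
    exact hgpj
  have hga : ∀ a, A.ga l a = A.gp a / A.gp j := fun a => by rw [AV.ga, hlf]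
  obtain ⟨y, hy⟩ : ∃ y : Fin (N + 1) → L, y = fun a => (A.x p j)⁻¹ * A.x p a := ⟨_, rfl⟩
  have hyP : A.IsPt y := by
    rw [hy]
    exact AV.IsPt.smul (A.x_isPt p) _
  have hy1 : lf l y = 1 := by
    rw [hlf, hy]
    exact inv_mul_cancel₀ hj
  have htr : ∀ f : MvPolynomial (Fin (N + 1)) K, aeval (A.ga l) f = 0 → aeval y f = 0 := fun f hf =>
    AV.transfer hlgp hf hyP hy1
  have hyG : aeval y G = 0 := by
    rw [hy, aeval_mul_homog hG, hGp, mul_zero]
  -- a transcendence basis
  obtain ⟨T, hT, hT'⟩ := Pool.Agent.Lib.MP_17a322_nt.VN.exists_basis_subset (K := K) y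
  have hr : Set.range (fun t : T => y t) = y '' T := (Set.image_eq_range _ _).symm
  have hle : tdeg K (A.x p) ≤ (Nat.card T : Cardinal.{u}) := by
    refine Z_tdeg_le_card (A.x p) (fun t : T => y t) fun q => ?_
    have e1 : rt (A.x p) q = y q.1 * (y q.2)⁻¹ := by
      rw [hy]
      show A.x p q.1 / A.x p q.2 = (A.x p j)⁻¹ * A.x p q.1 * ((A.x p j)⁻¹ * A.x p q.2)⁻¹
      rw [mul_inv, inv_inv, div_eq_mul_inv]
      field_simp
    rw [e1, hr]
    exact (hT' q.1).mul (hT' q.2).inv
  -- the generic point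
  have hTg : AlgebraicIndependent K (fun t : T => A.ga l t) := by
    rw [algebraicIndependent_iff]
    intro P hP
    refine (algebraicIndependent_iff.1 hT) P ?_
    have h1 := htr (rename (fun t : T => (t : Fin (N + 1))) P) (by rw [aeval_rename]; exact hP)
    rw [aeval_rename] at h1
    exact h1
  have hγ : aeval (A.ga l) G ≠ 0 := by
    intro h0
    refine hGA ((A.gp_zero_iff G).1 ?_)
    rw [AV.gp_eq hlgp, aeval_mul_homog hG, h0, mul_zero]
  obtain ⟨q, hq⟩ := AV.exists_rep (A := A) A.gp_ne A.gp_isPt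
  have halg : IsAlgebraic (Algebra.adjoin K (Set.range fun t : T => A.ga l t)) (aeval (A.ga l) G) := by
    by_contra hcon
    have h1 : AlgebraicIndependent K (fun o : Option T => o.elim (aeval (A.ga l) G) fun t => A.ga l t) :=
      (hTg.option_iff_transcendental _).2 hcon
    have hmem : ∀ a, A.ga l a ∈ IntermediateField.adjoin K (Set.range (rt (A.x q))) := by
      intro a
      have h2 : A.ga l a = rt (A.x q) (a, j) := by
        obtain ⟨c, hc, h3⟩ := hq
        rw [hga, h3, h3]
        exact mul_div_mul_left _ _ hc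
      rw [h2]
      exact IntermediateField.subset_adjoin K _ ⟨_, rfl⟩
    have hmemG : aeval (A.ga l) G ∈ IntermediateField.adjoin K (Set.range (rt (A.x q))) := by
      have h2 : aeval (A.ga l) G ∈ (IntermediateField.adjoin K (Set.range (rt (A.x q)))).toSubalgebra := by
        have h3 : aeval (A.ga l) G ∈ Algebra.adjoin K (Set.range (A.ga l)) := by
          rw [Algebra.adjoin_range_eq_range_aeval]
          exact ⟨G, rfl⟩
        refine Algebra.adjoin_le ?_ h3
        rintro _ ⟨a, rfl⟩
        exact hmem a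
      exact h2
    obtain ⟨h4, h5⟩ := Z_card_le_tdeg (K := K) (A.x q) _ h1 (fun o => by
      rcases o with _ | t
      · exact isAlgebraic_algebraMap (⟨_, hmemG⟩ : IntermediateField.adjoin K (Set.range (rt (A.x q))))
      · exact isAlgebraic_algebraMap (⟨_, hmem t⟩ : IntermediateField.adjoin K (Set.range (rt (A.x q)))))
    have h6 := (h5.trans (hp _ q)).trans hle
    have h7 : Nat.card (Option T) ≤ Nat.card T := by exact_mod_cast h6
    have hTf : Finite T := inferInstance
    rw [Finite.card_option] at h7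
    omega
  obtain ⟨n, P, hP0, hP⟩ := D1_rel _ hγ halg
  have h8 := htr (∑ i ∈ Finset.range (n + 1), rename (fun t : T => (t : Fin (N + 1))) (P i) * G ^ i) (by
    rw [map_sum, ← hP]
    refine Finset.sum_congr rfl fun i _ => ?_
    rw [map_mul, map_pow, aeval_rename]
    rfl)
  rw [map_sum, Finset.sum_range_succ', Finset.sum_eq_zero fun i _ => by
    rw [map_mul, map_pow, hyG, zero_pow (Nat.succ_ne_zero _), mul_zero], zero_add, pow_zero, mul_one,
    aeval_rename] at h8
  refine hP0 ?_
  rw [(algebraicIndependent_iff.1 hT) (P 0) h8, map_zero]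

end MWA
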