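import Pool.Agent.Lib.MP_17a322_ntMW.D1

/-!
Mordell-Weil, leaf D2: the double of a generic point is generic.
-/

universe u

namespace MWA

open MvPolynomial
open Pool.Agent.Lib.MP_17a322_nt.VA

/-- THE DOUBLE OF A GENERIC POINT IS GENERIC.

PROOF.  By D1 for `p = γ + γ` it suffices that `tdeg K (A.x q) ≤ tdeg K (A.x (γ + γ))` for all points `q`, and `tdeg K (A.x q) ≤ tdeg K (A.x γ)` by `Z_generic_tdeg`
(VA/Z7).  Let `E = IntermediateField.adjoin K (Set.range (rt (A.x (γ + γ))))`; `γ + γ = 2 • γ` is the image of a point `P₀` over `E` (`Z_descend`, VA/Z5), so by `Z_alg` (VA/Z2)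
with `L = E`, `F`, `m = 2`, all `rt (A.x γ) i` are algebraic over `E`.  Take `T` of `Z_exists_basis` (VA/Z3) for `A.x (γ + γ)`: the elements of `E` are algebraic over the field
generated by the `rt (A.x (γ + γ)) t`, `t ∈ T` (`Z_alg_adjoin`), and so are the `rt (A.x γ) i` (transitivity); `Z_tdeg_le_card` gives
`tdeg K (A.x γ) ≤ Nat.card T = tdeg K (A.x (γ + γ))`. -/
theorem D2 {K : Type u} [Field K] {N : ℕ} (A : AV K N) {F : Type u} [Field F] [Algebra K F]
    (γ : A.Pts F) (hγ : ∀ (G : MvPolynomial (Fin (N + 1)) K) (D : ℕ), G.IsHomogeneous D →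
      G ∉ A.I → aeval (A.x γ) G ≠ 0) (G : MvPolynomial (Fin (N + 1)) K) (D : ℕ)
    (hG : G.IsHomogeneous D) (hGA : G ∉ A.I) : aeval (A.x (γ + γ)) G ≠ 0 := by
  refine D1 A (γ + γ) (fun L' _ _ q => ?_) G D hG hGA
  refine (Z_generic_tdeg A hγ q).trans ?_
  obtain ⟨T, -, hT, hc⟩ := Z_exists_basis (K := K) (A.x (γ + γ))
  rw [hc]
  refine Z_tdeg_le_card (A.x γ) (fun t : T => rt (A.x (γ + γ)) t) fun i => ?_
  obtain ⟨W, hW⟩ : ∃ W : T → F, W = fun t : T => rt (A.x (γ + γ)) t := ⟨_, rfl⟩
  rw [← hW]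
  have hWy : ∀ i, IsAlgebraic (IntermediateField.adjoin K (Set.range W))
      (rt (A.x (γ + γ)) i) := by
    intro i
    have h1 := hT i
    rw [Set.image_eq_range] at h1
    rw [hW]
    exact h1
  -- the field of the elements algebraic over `K(W)`
  obtain ⟨E, hE⟩ : ∃ E : IntermediateField K F, ∀ a, a ∈ E ↔
      IsAlgebraic (IntermediateField.adjoin K (Set.range W)) a :=
    ⟨(algebraicClosure (IntermediateField.adjoin K (Set.range W)) F).restrictScalars K,
      fun a => mem_algebraicClosure_iff⟩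
  have hEalg : ∀ a, IsAlgebraic E a → a ∈ E := by
    intro a ha
    rw [hE]
    have h1 : IntermediateField.adjoin K (Set.range W) ≤ E := fun x hx => by
      rw [hE]
      exact isAlgebraic_algebraMap (⟨x, hx⟩ : IntermediateField.adjoin K (Set.range W))
    let _ : Algebra (IntermediateField.adjoin K (Set.range W)) E :=
      (IntermediateField.inclusion h1).toRingHom.toAlgebra
    have i7 : IsScalarTower (IntermediateField.adjoin K (Set.range W)) E F :=
      IsScalarTower.of_algebraMap_eq fun _ => rfl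
    have i8 : Algebra.IsAlgebraic (IntermediateField.adjoin K (Set.range W)) E := by
      refine ⟨fun e => ?_⟩
      have h2 := (hE e).1 e.2
      exact (isAlgebraic_algebraMap_iff (R := IntermediateField.adjoin K (Set.range W))
        (algebraMap E F).injective).1 h2
    exact ha.restrictScalars _
  obtain ⟨y₀, hy₀⟩ := Z_descend A E (γ + γ) fun i => (hE _).2 (hWy i)
  have h2 : A.Img E.val y₀ (2 • γ) := by
    rw [two_nsmul]
    exact hy₀
  exact (hE _).1 (hEalg _ (Z_alg A γ 2 two_ne_zero y₀ h2 i.1 i.2))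

end MWA
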