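import Pool.Agent.Lib.MP_17a322_ntMW.D2
import Pool.Agent.Lib.MP_17a322_nt.VA.A3b

/-!
Mordell-Weil, leaf D6: generic points over algebraically closed fields are doubles.
-/

universe u

namespace MWA

open MvPolynomial
open Pool.Agent.Lib.MP_17a322_nt.VA

private theorem D6_aeval_map {K : Type*} [Field K] {σ : Type*} {R R' : Type*} [CommRing R] [Algebra K R]
    [CommRing R'] [Algebra K R'] (φ : R →ₐ[K] R') (y : σ → R) (f : MvPolynomial σ K) :
    aeval (fun i => φ (y i)) f = φ (aeval y f) := by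
  rw [← AlgHom.comp_apply, MvPolynomial.comp_aeval]

private theorem D6_lp {K : Type u} [Field K] {N : ℕ} (l : Fin (N + 1) → K) : (lp l).IsHomogeneous 1 := by
  rw [Pool.Agent.Lib.MP_17a322_nt.VA.lp]
  exact IsHomogeneous.sum _ _ _ fun i _ => isHomogeneous_C_mul_X _ _

private theorem D6_hz {K : Type u} [Field K] {N : ℕ} (l : Fin (N + 1) → K)
    (f : MvPolynomial (Fin (N + 1)) K) : (hz l f).IsHomogeneous f.totalDegree := by
  rw [hz]
  refine IsHomogeneous.sum _ _ _ fun d hd => ?_
  have h1 := ((D6_lp l).pow (f.totalDegree - d)).mul (homogeneousComponent_isHomogeneous d f)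
  rw [one_mul, Nat.sub_add_cancel (Nat.lt_succ_iff.1 (Finset.mem_range.1 hd))] at h1
  exact h1

/-- The generic point over its field of definition.  PROOF.  `γ : A.Pts A.FF` with `A.Rep γ A.gp` (`AV.exists_rep`, `AV.gp_ne`, `AV.gp_isPt`) is generic (`AV.gp_zero_iff`;
`A.x γ` is proportional to `A.gp`, homogeneity).  `F = IntermediateField.adjoin K (Set.range (rt (A.x γ)))`, `Z_descend` gives `γ₁ : A.Pts F` with
`A.Img F.val γ₁ γ`, so `rt (A.x γ) i = F.val (rt (A.x γ₁) i)` (`Z_img_rt`), so the `rt (A.x γ₁) i` generate `F` (`IntermediateField.adjoin` in `F` of them is `⊤`), and `γ₁` is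
generic because `aeval (A.x γ) G` is a nonzero multiple of the image of `aeval (A.x γ₁) G`. -/
theorem D6a {K : Type u} [Field K] {N : ℕ} (A : AV K N) :
    ∃ (F : Type u) (_ : Field F) (_ : Algebra K F) (γ : A.Pts F),
      IntermediateField.adjoin K (Set.range (rt (A.x γ))) = ⊤ ∧
      ∀ (G : MvPolynomial (Fin (N + 1)) K) (D : ℕ), G.IsHomogeneous D → G ∉ A.I →
        aeval (A.x γ) G ≠ 0 := by
  obtain ⟨γ', hγ'⟩ := AV.exists_rep (A := A) A.gp_ne A.gp_isPt
  obtain ⟨F₀, hF₀⟩ : ∃ F₀ : IntermediateField K A.FF,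
      F₀ = IntermediateField.adjoin K (Set.range (rt (A.x γ'))) := ⟨_, rfl⟩
  obtain ⟨γ, hγ⟩ := Z_descend A F₀ γ' fun i => by
    rw [hF₀]
    exact IntermediateField.subset_adjoin K _ ⟨i, rfl⟩
  refine ⟨F₀, inferInstance, inferInstance, γ, ?_, ?_⟩
  · have hmap : (IntermediateField.adjoin K (Set.range (rt (A.x γ)))).map F₀.val = F₀ := by
      rw [IntermediateField.adjoin_map]
      have h1 : F₀.val '' Set.range (rt (A.x γ)) = Set.range (rt (A.x γ')) := by
        rw [← Set.range_comp]
        exact congrArg Set.range (funext fun i => (Z_img_rt A hγ i).symm)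
      rw [h1, ← hF₀]
    rw [eq_top_iff]
    intro z _
    have hz : (z : A.FF) ∈ (IntermediateField.adjoin K (Set.range (rt (A.x γ)))).map F₀.val := by
      rw [hmap]
      exact z.2
    obtain ⟨w, hw, hwz⟩ := hz
    have h2 : w = z := Subtype.ext hwz
    rw [← h2]
    exact hw
  · intro G D hG hGA h0
    obtain ⟨c, hc, h1⟩ := hγ
    obtain ⟨d, hd, h2⟩ := hγ'
    refine hGA ((A.gp_zero_iff G).1 ?_)
    have h3 := D6_aeval_map F₀.val (A.x γ) G
    rw [h0, map_zero, funext h1, aeval_mul_homog hG] at h3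
    have h4 : aeval (A.x γ') G = 0 := (mul_eq_zero.1 h3).resolve_left (pow_ne_zero _ hc)
    rw [funext h2, aeval_mul_homog hG, h4, mul_zero]

/-- GENERIC POINTS ARE DOUBLES.

PROOF.  `F`, `γ` from D6a, `p = γ + γ`, generic by D2.  Choose `j` with `A.x (0 : A.Pts K) j ≠ 0`; `X j ∉ A.I`, so `A.x p j ≠ 0`, `A.x G j ≠ 0`.  Let `y i = A.x p i / A.x p j`,
`y' i = A.x G i / A.x G j`.  For `f ∈ K[X]`: `aeval y f = 0` iff `aeval y' f = 0`; indeed both are equivalent to `f^h ∈ A.I`, where
`f^h = ∑_{d ≤ D} X j ^ (D - d) f_d`, `D = f.totalDegree` (`hz` in VA/N1 with `l = Pi.single j 1`, `hz_smul`; `f^h` is homogeneous of degree `D` and `aeval (A.x p) f^h = A.x p j ^ D * aeval y f`):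
if `f^h ∈ A.I` it vanishes at all points, if not it does not vanish at generic points.  Let `B = MvPolynomial (Fin (N + 1)) K ⧸ RingHom.ker (aeval y)`, with the
injective homomorphisms `B → F` (induced by `aeval y`, `Ideal.kerLiftAlg`, `Ideal.kerLiftAlg_injective`) and `B → E` (induced by `aeval y'`,
`Ideal.Quotient.liftₐ`, injective as the kernels agree).  `F` is algebraic over `B`: `p` comes from a point over `k = IntermediateField.adjoin K (Set.range (rt (A.x p)))` (`Z_descend`),
`2 • γ = p`, so the `rt (A.x γ) i` are algebraic over `k` (`Z_alg`, `m = 2`), so `F` is algebraic over `k` (`Z_alg_adjoin`), and the elements of `k` are fractions of elements of the range of `B`, so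
algebraic over `B` (the `rt (A.x p) (a, b) = y a / y b`; the set of the elements of `F` algebraic over the domain `B` is a field: Mathlib `IsFractionRing`/
`Algebra.IsAlgebraic`, e.g. `algebraicClosure`, `IsAlgebraic.inv`, `IsAlgebraic.mul`).  So `IsAlgClosed.lift : F →ₐ[B] E` exists (model: `Z_embed` in VA/Z3, which uses it for
`MvPolynomial T k`), a `K`-homomorphism `σ` with `σ (y i) = y' i`.  `q = A.img σ γ`: `q + q = A.img σ p` has the representatives `σ (A.x p i)`, so also
`σ (y i) = y' i`, which represents `G` (`AV.Rep.img`, `AV.Rep.unique`). -/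
theorem D6 {K : Type u} [Field K] {N : ℕ} (A : AV K N) {E : Type u} [Field E] [IsAlgClosed E]
    [Algebra K E] (G : A.Pts E) (hG : ∀ (g : MvPolynomial (Fin (N + 1)) K) (D : ℕ),
      g.IsHomogeneous D → g ∉ A.I → aeval (A.x G) g ≠ 0) :
    ∃ q : A.Pts E, q + q = G := by
  obtain ⟨F, iF, iA, γ, hgen, hγ⟩ := D6a A
  have hp := fun (g : MvPolynomial (Fin (N + 1)) K) (D : ℕ) (h : g.IsHomogeneous D) (h' : g ∉ A.I) =>
    D2 A γ hγ g D h h'
  obtain ⟨p, hpe⟩ : ∃ p : A.Pts F, p = γ + γ := ⟨_, rfl⟩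
  rw [← hpe] at hp
  obtain ⟨j, hj⟩ := A.exists_x_ne p
  obtain ⟨l, hl⟩ : ∃ l : Fin (N + 1) → K, l = Pi.single j 1 := ⟨_, rfl⟩
  have hlf : ∀ {R : Type u} [CommRing R] [Algebra K R] (x : Fin (N + 1) → R), lf l x = x j := by
    intro R _ _ x
    rw [hl, lf_single]
  have hjI : (X j : MvPolynomial (Fin (N + 1)) K) ∉ A.I := by
    intro h
    have h2 := A.x_isPt p (X j) h
    rw [aeval_X] at h2
    exact hj h2
  have hGj : A.x G j ≠ 0 := by
    have h1 := hG (X j) 1 (isHomogeneous_X K j) hjI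
    rwa [aeval_X] at h1
  obtain ⟨y, hy⟩ : ∃ y : Fin (N + 1) → F, y = fun a => (A.x p j)⁻¹ * A.x p a := ⟨_, rfl⟩
  obtain ⟨y', hy'⟩ : ∃ y' : Fin (N + 1) → E, y' = fun a => (A.x G j)⁻¹ * A.x G a := ⟨_, rfl⟩
  have hiff : ∀ f : MvPolynomial (Fin (N + 1)) K, aeval y f = 0 ↔ hz l f ∈ A.I := by
    intro f
    have h1 : lf l y = 1 := by
      rw [hlf, hy]
      exact inv_mul_cancel₀ hj
    have h2 : (fun i => A.x p j * y i) = A.x p := by
      funext i
      rw [hy]
      exact mul_inv_cancel_left₀ hj _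
    have h3 := hz_smul h1 (A.x p j) f
    rw [h2] at h3
    constructor
    · intro h
      by_contra h4
      exact hp _ _ (D6_hz l f) h4 (by rw [h3, h, mul_zero])
    · intro h
      have h4 := A.x_isPt p _ h
      rw [h3] at h4
      exact (mul_eq_zero.1 h4).resolve_left (pow_ne_zero _ hj)
  have hiff' : ∀ f : MvPolynomial (Fin (N + 1)) K, aeval y' f = 0 ↔ hz l f ∈ A.I := by
    intro f
    have h1 : lf l y' = 1 := by
      rw [hlf, hy']
      exact inv_mul_cancel₀ hGj
    have h2 : (fun i => A.x G j * y' i) = A.x G := by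
      funext i
      rw [hy']
      exact mul_inv_cancel_left₀ hGj _
    have h3 := hz_smul h1 (A.x G j) f
    rw [h2] at h3
    constructor
    · intro h
      by_contra h4
      exact hG _ _ (D6_hz l f) h4 (by rw [h3, h, mul_zero])
    · intro h
      have h4 := A.x_isPt G _ h
      rw [h3] at h4
      exact (mul_eq_zero.1 h4).resolve_left (pow_ne_zero _ hGj)
  -- the field `F` is algebraic over the field generated by the `y i`
  have halg : ∀ e : F, IsAlgebraic (IntermediateField.adjoin K (Set.range y)) e := by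
    intro e
    obtain ⟨k, hk⟩ : ∃ k : IntermediateField K F, k = IntermediateField.adjoin K (Set.range y) := ⟨_, rfl⟩
    rw [← hk]
    have hyk : ∀ i, y i ∈ k := fun i => by
      rw [hk]
      exact IntermediateField.subset_adjoin K _ ⟨i, rfl⟩
    have hrt : ∀ i, rt (A.x p) i ∈ k := by
      intro i
      have e1 : rt (A.x p) i = y i.1 / y i.2 := by
        rw [hy]
        show A.x p i.1 / A.x p i.2 = (A.x p j)⁻¹ * A.x p i.1 / ((A.x p j)⁻¹ * A.x p i.2)
        rw [mul_div_mul_left _ _ (inv_ne_zero hj)]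
      rw [e1]
      exact div_mem (hyk _) (hyk _)
    obtain ⟨p₀, hp₀⟩ := Z_descend A k p hrt
    have h2 : A.Img k.val p₀ (2 • γ) := by
      rw [two_nsmul, ← hpe]
      exact hp₀
    have h3 : ∀ i, IsAlgebraic k (rt (A.x γ) i) := fun i => Z_alg A γ 2 two_ne_zero p₀ h2 i.1 i.2
    refine Z_alg_adjoin (K := K) (S := Set.range (rt (A.x γ))) ?_ ?_
    · rintro _ ⟨i, rfl⟩
      exact h3 i
    · rw [hgen]
      exact IntermediateField.mem_top
  -- the ring
  obtain ⟨Φ, hΦ⟩ : ∃ Φ : MvPolynomial (Fin (N + 1)) K →ₐ[K] F, Φ = aeval y := ⟨_, rfl⟩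
  let B := MvPolynomial (Fin (N + 1)) K ⧸ RingHom.ker Φ
  let φF : B →ₐ[K] F := Ideal.kerLiftAlg Φ
  have hφF : Function.Injective φF := Ideal.kerLiftAlg_injective Φ
  have hφFm : ∀ f, φF (Ideal.Quotient.mk _ f) = aeval y f := fun f => by
    rw [← hΦ]
    exact Ideal.kerLiftAlg_mk Φ f
  let φE : B →ₐ[K] E := Ideal.Quotient.liftₐ (RingHom.ker Φ) (aeval y') fun a ha => by
    have h1 : Φ a = 0 := ha
    rw [hΦ] at h1
    exact (hiff' a).2 ((hiff a).1 h1)
  have hφEm : ∀ f, φE (Ideal.Quotient.mk _ f) = aeval y' f := fun f => rfl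
  have hφE : Function.Injective φE := by
    rw [injective_iff_map_eq_zero]
    intro b hb
    obtain ⟨f, rfl⟩ := Ideal.Quotient.mk_surjective b
    rw [hφEm] at hb
    refine Ideal.Quotient.eq_zero_iff_mem.2 ?_
    show Φ f = 0
    rw [hΦ]
    exact (hiff f).2 ((hiff' f).1 hb)
  let _ : Algebra B F := φF.toRingHom.toAlgebra
  let _ : Algebra B E := φE.toRingHom.toAlgebra
  have i5 : FaithfulSMul B F := (faithfulSMul_iff_algebraMap_injective _ _).2 hφF
  have i6 : FaithfulSMul B E := (faithfulSMul_iff_algebraMap_injective _ _).2 hφE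
  have i8 : IsDomain B := hφF.isDomain φF.toRingHom
  have i7 : Algebra.IsAlgebraic B F := by
    have h1 : Algebra.IsAlgebraic (Algebra.adjoin K (Set.range y)) F := by
      open scoped IntermediateField.algebraAdjoinAdjoin in
      exact ⟨fun e => (IsFractionRing.isAlgebraic_iff (Algebra.adjoin K (Set.range y))
        (IntermediateField.adjoin K (Set.range y)) F).2 (halg e)⟩
    have h2 : ∀ b : B, φF b ∈ Algebra.adjoin K (Set.range y) := by
      intro b
      obtain ⟨f, rfl⟩ := Ideal.Quotient.mk_surjective b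
      rw [hφFm, Algebra.adjoin_range_eq_range_aeval]
      exact ⟨f, rfl⟩
    refine Algebra.IsAlgebraic.of_ringHom_of_comp_eq (S := Algebra.adjoin K (Set.range y)) (B := F)
      (φF.codRestrict (Algebra.adjoin K (Set.range y)) h2).toRingHom (RingHom.id F) ?_
      (fun _ _ h => h) ?_
    · rintro ⟨e, he⟩
      have he' := he
      rw [Algebra.adjoin_range_eq_range_aeval] at he'
      obtain ⟨f, hf⟩ := he'
      refine ⟨Ideal.Quotient.mk _ f, Subtype.ext ?_⟩
      exact (hφFm f).trans hf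
    · exact RingHom.ext fun b => rfl
  let σ : F →ₐ[B] E := IsAlgClosed.lift
  have hσ : ∀ i, σ (y i) = y' i := by
    intro i
    have h1 : y i = algebraMap B F (Ideal.Quotient.mk _ (X i)) := by
      have h2 := hφFm (X i)
      rw [aeval_X] at h2
      exact h2.symm
    rw [h1, σ.commutes]
    have h2 := hφEm (X i)
    rw [aeval_X] at h2
    exact h2
  let σ' : F →ₐ[K] E :=
    { toRingHom := σ.toRingHom
      commutes' := fun a => by
        have h1 : algebraMap K F a = algebraMap B F (algebraMap K B a) := (φF.commutes a).symm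
        show σ (algebraMap K F a) = _
        rw [h1, σ.commutes]
        exact φE.commutes a }
  have hσ' : ∀ i, σ' (y i) = y' i := hσ
  refine ⟨A.img σ' γ, ?_⟩
  rw [← AV.img_add, ← hpe]
  have h1 : A.Rep (A.img σ' p) y' := by
    have h2 : A.Rep p y := by
      rw [hy]
      exact (AV.Rep.self p).smul (inv_ne_zero hj)
    have h3 := h2.img σ'
    rw [funext hσ'] at h3
    exact h3
  have h2 : A.Rep G y' := by
    rw [hy']
    exact (AV.Rep.self G).smul (inv_ne_zero hGj)
  exact h1.unique h2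

end MWA
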