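import Mathlib

/-!
Mordell-Weil, leaf M1a: closed sets of algebraic points are finite.
-/

universe u

namespace MWA

open MvPolynomial

/-- If all zeros of `J` over all extension fields have algebraic coordinates, then there are only finitely many zeros over each extension field.

PROOF.  `R = MvPolynomial σ K` is noetherian, so `J.minimalPrimes` is finite (Mathlib `Ideal.finite_minimalPrimes_of_isNoetherianRing`).  For
`p` in it let `L_p = FractionRing (R ⧸ p)` (a field of type `u`, a `K`-algebra; model: `nullst` in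
`Pool/Agent/Lib/MP_17a322_nt/VA/A2.lean`, where `aeval (fun t => φ (X t)) f = φ f = 0 ↔ f ∈ p` is proved for
`φ : MvPolynomial σ K →ₐ[K] L_p`).  The vector `(φ (X i))_i` is a zero of `J`, so `φ (X i)` is algebraic: there is a nonzero `m_(p,i) ∈ K[X]` with
`m_(p,i) (φ (X i)) = 0`, i.e. the polynomial `m_(p,i) (X i)` (`Polynomial.aeval (X i) m`, in `MvPolynomial σ K`) is in `p`.  Let
`P_i = ∏_p m_(p,i) ≠ 0`.  If `x` is a zero of `J` in the field `Ω`, then the kernel of `aeval x` is a prime ideal which contains `J`, so it contains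
some `p ∈ J.minimalPrimes` (`Ideal.exists_minimalPrimes_le`), `m_(p,i) (x i) = 0` and `P_i (x i) = 0`.  So the set is contained in the set of
the `x` with `x i ∈ (P_i.map (algebraMap K Ω)).rootSet / roots`, which is finite (`Set.Finite.pi'`). -/
theorem M1a {K : Type u} [Field K] {σ : Type} [Finite σ] (J : Ideal (MvPolynomial σ K))
    (h : ∀ (L : Type u) [Field L] [Algebra K L] (x : σ → L), (∀ f ∈ J, aeval x f = 0) →
      ∀ i, IsAlgebraic K (x i)) (Ω : Type u) [Field Ω] [Algebra K Ω] :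
    {x : σ → Ω | ∀ f ∈ J, aeval x f = 0}.Finite := by
  classical
  cases nonempty_fintype σ
  have hfin : J.minimalPrimes.Finite := Ideal.finite_minimalPrimes_of_isNoetherianRing _ J
  have h1 : ∀ p : J.minimalPrimes, ∀ i, ∃ m : Polynomial K, m ≠ 0 ∧
      Polynomial.aeval (X i : MvPolynomial σ K) m ∈ p.1 := by
    rintro ⟨p, hp⟩ i
    have hprime : p.IsPrime := hp.1.1
    have hJp : J ≤ p := hp.1.2
    obtain ⟨φ, hφ⟩ : ∃ φ : MvPolynomial σ K →ₐ[K] FractionRing (MvPolynomial σ K ⧸ p),
        ∀ f, φ f = 0 ↔ f ∈ p := by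
      refine ⟨(IsScalarTower.toAlgHom K (MvPolynomial σ K ⧸ p)
        (FractionRing (MvPolynomial σ K ⧸ p))).comp (Ideal.Quotient.mkₐ K p), fun f => ?_⟩
      rw [AlgHom.comp_apply, IsScalarTower.coe_toAlgHom', Ideal.Quotient.mkₐ_eq_mk,
        FaithfulSMul.algebraMap_eq_zero_iff, Ideal.Quotient.eq_zero_iff_mem]
    have h2 : ∀ f ∈ J, aeval (fun t => φ (X t)) f = 0 := by
      intro f hf
      have h3 : aeval (fun t => φ (X t)) = φ := algHom_ext fun t => by rw [aeval_X]
      rw [h3]
      exact (hφ f).2 (hJp hf)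
    obtain ⟨m, hm0, hm⟩ := h _ (fun t => φ (X t)) h2 i
    refine ⟨m, hm0, (hφ _).1 ?_⟩
    rw [← Polynomial.aeval_algHom_apply]
    exact hm
  choose m hm0 hm using h1
  have hfin' : Finite J.minimalPrimes := hfin.to_subtype
  have h2 : ∀ i : σ, (⋃ p : J.minimalPrimes, {y : Ω | Polynomial.aeval y (m p i) = 0}).Finite := by
    intro i
    refine Set.finite_iUnion fun p => ?_
    refine ((m p i).rootSet_finite Ω).subset fun y hy => ?_
    rw [Polynomial.mem_rootSet]
    exact ⟨hm0 p i, hy⟩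
  refine (Set.Finite.pi' h2).subset fun x hx i => ?_
  have h3 : J ≤ RingHom.ker (aeval x : MvPolynomial σ K →ₐ[K] Ω) := fun f hf => hx f hf
  have h3' : (RingHom.ker (aeval x : MvPolynomial σ K →ₐ[K] Ω)).IsPrime := RingHom.ker_isPrime _
  obtain ⟨p, hp, hle⟩ := Ideal.exists_minimalPrimes_le h3
  refine Set.mem_iUnion.2 ⟨⟨p, hp⟩, ?_⟩
  have h4 : aeval x (Polynomial.aeval (X i : MvPolynomial σ K) (m ⟨p, hp⟩ i)) = 0 :=
    hle (hm ⟨p, hp⟩ i)
  rw [← Polynomial.aeval_algHom_apply, aeval_X] at h4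
  exact h4

end MWA
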