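import Pool.Agent.Lib.MP_17a322_ntMW.M1
import Pool.Agent.Lib.MP_17a322_ntMW.D0
import Pool.Agent.Lib.MP_17a322_nt.VA.Z5

/-!
Mordell-Weil, leaf M1b: a number field with all points of order two.
-/

universe u

namespace MWA

open Pool.Agent.Lib.MP_17a322_nt.VA

/-- The image of an algebraically closed field contains the algebraic elements. -/
private theorem M1b_range {K Ω M : Type u} [Field K] [Field Ω] [Field M] [Algebra K Ω] [Algebra K M]
    [IsAlgClosed Ω] (ι : Ω →ₐ[K] M) {a : M} (ha : IsAlgebraic K a) : a ∈ ι.fieldRange := by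
  have h1 : IsAlgClosed ι.fieldRange :=
    IsAlgClosed.of_ringEquiv Ω ι.fieldRange (AlgEquiv.ofInjectiveField ι).toRingEquiv
  have h2 : IsAlgebraic ι.fieldRange a := ha.tower_top ι.fieldRange
  have h3 : IsIntegral ι.fieldRange a := h2.isIntegral
  have h4 := IsAlgClosed.degree_eq_one_of_irreducible ι.fieldRange (minpoly.irreducible h3)
  obtain ⟨b, hb⟩ := minpoly.mem_range_of_degree_eq_one ι.fieldRange a h4
  rw [← hb]
  exact b.2

/-- There is a number field with all points of order two.

PROOF.  Let `Ω = AlgebraicClosure K`.  The set of the `T : A.Pts Ω` with `T + T = 0` is finite (M1).  Let `L = IntermediateField.adjoin K` of the finite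
set of all `rt (A.x T) p` (`rt y p = y p.1 / y p.2`, VA/Z3); it is finite dimensional over `K` (all elements of `Ω` are algebraic,
`IntermediateField.finiteDimensional_adjoin`), so a number field (`NumberField`: characteristic zero and finite over `ℚ`, `Module.Finite.trans`).
Every such `T` comes from `A.Pts L`: `Z_descend` (VA/Z5), `AV.img_eq_iff` (`A.Img φ P P'` is `IsImg φ P P'`).

Now let `M` be a field over `L` (and over `K`, scalar tower) and `T : A.Pts M` with `T + T = 0`.  Let `M' = AlgebraicClosure M`,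
`ι : Ω →ₐ[L] M'` (`IsAlgClosed.lift`; `Ω` is algebraic over `L`) and `j : M → M'`.  The point `T' = A.img j T` satisfies `T' + T' = 0`
(`AV.img_add`, `AV.img_zero`), so all `rt (A.x T') p` are algebraic over `K` by `Z_alg` (VA/Z2, `L := K`, `m = 2`, `Q = 0`), so they
are in the range of `ι` (`ι` maps the algebraically closed field `Ω` onto the algebraic elements: if `a ∈ M'` is algebraic over `K`, the minimal
polynomial splits over `Ω`, so its roots in `M'` are images of roots in `Ω`; for example `IsAlgClosed.roots_eq...`, `IntermediateField.algHomAdjoin...`, or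
`minpoly` and `Polynomial.splits_iff_exists_multiset`, `Multiset.map`).  So there is `T₁ : A.Pts Ω` with `A.img ι' T₁ = T'` where `ι'` is `ι` as
homomorphism over `K` (`Z_descend` with the field range of `ι'`, or directly: some `A.x T' j ≠ 0`, the vector of the preimages of
`A.x T' i / A.x T' j` is a point by `AV.IsPt.of_injective`), `T₁ + T₁ = 0` (`AV.img_injective`), so `T₁` comes from `T₀ : A.Pts L`, and the images of
`T₀` under `L → M → M'` and `L → Ω → M'` agree (the two homomorphisms are equal, as `ι` is over `L`; `AV.img_comp`), so `A.img T₀ = T` by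
`AV.img_injective`. -/
theorem M1b {K : Type u} [Field K] [NumberField K] {N : ℕ} (A : AV K N) :
    ∃ (L : Type u) (_ : Field L) (_ : NumberField L) (_ : Algebra K L), T2 A L := by
  classical
  let Ω : Type u := AlgebraicClosure K
  have hfin : {T : A.Pts Ω | T + T = 0}.Finite := M1 A Ω
  obtain ⟨R, hR⟩ : ∃ R : Set Ω, R = ⋃ T ∈ {T : A.Pts Ω | T + T = 0}, Set.range (rt (A.x T)) := ⟨_, rfl⟩
  have hRfin : R.Finite := by
    rw [hR]
    exact hfin.biUnion fun T _ => Set.finite_range _
  let L : IntermediateField K Ω := IntermediateField.adjoin K R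
  have hRL : ∀ T : A.Pts Ω, T + T = 0 → ∀ p, rt (A.x T) p ∈ L := by
    intro T hT p
    refine IntermediateField.subset_adjoin K R ?_
    rw [hR]
    exact Set.mem_biUnion (show T ∈ {T : A.Pts Ω | T + T = 0} from hT) ⟨p, rfl⟩
  have hfd : FiniteDimensional K L := by
    have : Finite R := hRfin
    exact IntermediateField.finiteDimensional_adjoin fun x _ => (Algebra.IsAlgebraic.isAlgebraic (R := K) x).isIntegral
  have hNF : NumberField L := NumberField.of_module_finite K L
  refine ⟨L, inferInstance, hNF, inferInstance, ?_⟩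
  intro M _ _ _ _ T hT
  let M' : Type u := AlgebraicClosure M
  have halgL : Algebra.IsAlgebraic L Ω := Algebra.IsAlgebraic.tower_top (K := K) L
  let ι : Ω →ₐ[L] M' := IsAlgClosed.lift
  let ι' : Ω →ₐ[K] M' := ι.restrictScalars K
  obtain ⟨T', hT'⟩ : ∃ T' : A.Pts M', T' = A.img (IsScalarTower.toAlgHom K M M') T := ⟨_, rfl⟩
  have hT'2 : T' + T' = 0 := by
    rw [hT', ← AV.img_add, hT, AV.img_zero]
  have halg : ∀ p, rt (A.x T') p ∈ ι'.fieldRange := by
    intro p
    refine M1b_range ι' ?_
    refine Z_alg A (L := K) (F := M') T' 2 two_ne_zero 0 ?_ p.1 p.2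
    rw [two_nsmul, hT'2]
    exact (AV.img_eq_iff _).1 (AV.img_zero _)
  obtain ⟨P₀, hP₀⟩ := Z_descend A ι'.fieldRange T' halg
  let e : Ω ≃ₐ[K] ι'.fieldRange := AlgEquiv.ofInjectiveField ι'
  obtain ⟨T₁, hT₁⟩ : ∃ T₁ : A.Pts Ω, T₁ = A.img (e.symm : ι'.fieldRange →ₐ[K] Ω) P₀ := ⟨_, rfl⟩
  have hιe : ι'.comp (e.symm : ι'.fieldRange →ₐ[K] Ω) = ι'.fieldRange.val := by
    refine AlgHom.ext fun a => ?_
    have h1 : ((e (e.symm a) : ι'.fieldRange) : M') = ι' (e.symm a) := rfl
    rw [AlgEquiv.apply_symm_apply] at h1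
    exact h1.symm
  have hT₁' : A.img ι' T₁ = T' := by
    rw [hT₁, ← AV.img_comp, hιe, AV.img_eq_iff]
    exact hP₀
  have hT₁2 : T₁ + T₁ = 0 := by
    refine AV.img_injective (A := A) ι' ?_
    rw [AV.img_add, AV.img_zero, hT₁', hT'2]
  obtain ⟨T₀, hT₀⟩ := Z_descend A L T₁ (hRL T₁ hT₁2)
  have hT₀' : A.img L.val T₀ = T₁ := (AV.img_eq_iff _).2 hT₀
  refine ⟨T₀, AV.img_injective (A := A) (IsScalarTower.toAlgHom K M M') ?_⟩
  rw [← hT', ← hT₁', ← hT₀', ← AV.img_comp, ← AV.img_comp]
  have h2 : (IsScalarTower.toAlgHom K M M').comp (IsScalarTower.toAlgHom K L M) = ι'.comp L.val := by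
    refine AlgHom.ext fun a => ?_
    have h3 : ι (algebraMap L Ω a) = algebraMap L M' a := ι.commutes a
    have h4 : algebraMap L M' a = algebraMap M M' (algebraMap L M a) :=
      IsScalarTower.algebraMap_apply L M M' a
    exact (h3.trans h4).symm
  rw [h2]

end MWA
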