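import Pool.Agent.Lib.MP_17a322_nt.VA.A6

/-!
# Mordell-Weil, block M3: reduction modulo almost all primes (absolute values)
-/

set_option autoImplicit false

universe u

namespace MWA

open MvPolynomial Pool.Agent.Lib.MP_17a322_nt.VA Pool.Agent.Lib.MP_17a322_nt.VJ

section

variable {L : Type*} [Field L] {v : AbsoluteValue L ℝ}

theorem lt_add (hv : IsNonarchimedean v) {a b : L} (ha : v a < 1) (hb : v b < 1) : v (a + b) < 1 :=
  (hv a b).trans_lt (max_lt ha hb)

theorem lt_sub (hv : IsNonarchimedean v) {a b : L} (ha : v a < 1) (hb : v b < 1) : v (a - b) < 1 := by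
  rw [sub_eq_add_neg]
  exact lt_add hv ha (by rwa [v.map_neg])

theorem le_add (hv : IsNonarchimedean v) {a b : L} (ha : v a ≤ 1) (hb : v b ≤ 1) : v (a + b) ≤ 1 :=
  (hv a b).trans (max_le ha hb)

theorem lt_sum (hv : IsNonarchimedean v) {ι : Type*} (s : Finset ι) (f : ι → L) (h : ∀ i ∈ s, v (f i) < 1) :
    v (∑ i ∈ s, f i) < 1 := by
  classical
  induction s using Finset.induction_on with
  | empty => simp
  | insert a s ha ih =>
    rw [Finset.sum_insert ha]
    exact lt_add hv (h a (Finset.mem_insert_self a s)) (ih fun i hi => h i (Finset.mem_insert_of_mem hi))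

theorem le_sum (hv : IsNonarchimedean v) {ι : Type*} (s : Finset ι) (f : ι → L) (h : ∀ i ∈ s, v (f i) ≤ 1) :
    v (∑ i ∈ s, f i) ≤ 1 := by
  classical
  induction s using Finset.induction_on with
  | empty => simp
  | insert a s ha ih =>
    rw [Finset.sum_insert ha]
    exact le_add hv (h a (Finset.mem_insert_self a s)) (ih fun i hi => h i (Finset.mem_insert_of_mem hi))

theorem lt_mul_sub (hv : IsNonarchimedean v) {a b a' b' : L} (ha' : v a' ≤ 1) (hb : v b ≤ 1)
    (h1 : v (a - a') < 1) (h2 : v (b - b') < 1) : v (a * b - a' * b') < 1 := by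
  have e : a * b - a' * b' = (a - a') * b + a' * (b - b') := by ring
  rw [e]
  refine lt_add hv ?_ ?_
  · rw [map_mul]
    exact (mul_le_of_le_one_right (v.nonneg _) hb).trans_lt h1
  · rw [map_mul]
    exact (mul_le_of_le_one_left (v.nonneg _) ha').trans_lt h2

theorem le_prod {ι : Type*} (s : Finset ι) (f : ι → L) (h : ∀ i ∈ s, v (f i) ≤ 1) : v (∏ i ∈ s, f i) ≤ 1 := by
  rw [map_prod]
  exact Finset.prod_le_one (fun i _ => v.nonneg _) h

theorem lt_prod_sub (hv : IsNonarchimedean v) {ι : Type*} (s : Finset ι) (f f' : ι → L) (h : ∀ i ∈ s, v (f i) ≤ 1)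
    (h' : ∀ i ∈ s, v (f' i) ≤ 1) (hd : ∀ i ∈ s, v (f i - f' i) < 1) :
    v (∏ i ∈ s, f i - ∏ i ∈ s, f' i) < 1 := by
  classical
  induction s using Finset.induction_on with
  | empty => simp
  | insert a s ha ih =>
    rw [Finset.prod_insert ha, Finset.prod_insert ha]
    exact lt_mul_sub hv (h' a (Finset.mem_insert_self a s))
      (le_prod s f fun i hi => h i (Finset.mem_insert_of_mem hi)) (hd a (Finset.mem_insert_self a s))
      (ih (fun i hi => h i (Finset.mem_insert_of_mem hi)) (fun i hi => h' i (Finset.mem_insert_of_mem hi))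
        fun i hi => hd i (Finset.mem_insert_of_mem hi))

theorem lt_pow_sub (hv : IsNonarchimedean v) {a a' : L} (ha : v a ≤ 1) (ha' : v a' ≤ 1) (h : v (a - a') < 1) (n : ℕ) :
    v (a ^ n - a' ^ n) < 1 := by
  have h1 := lt_prod_sub hv (Finset.range n) (fun _ => a) (fun _ => a') (fun _ _ => ha) (fun _ _ => ha') fun _ _ => h
  rwa [Finset.prod_const, Finset.prod_const, Finset.card_range] at h1

variable {K : Type*} [Field K] [Algebra K L] {σ : Type*}

theorem aeval_le (hv : IsNonarchimedean v) (F : MvPolynomial σ K) (hF : ∀ m, v (algebraMap K L (coeff m F)) ≤ 1)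
    {x : σ → L} (hx : ∀ i, v (x i) ≤ 1) : v (aeval x F) ≤ 1 := by
  rw [aeval_def, eval₂_eq]
  refine le_sum hv _ _ fun m _ => ?_
  rw [map_mul]
  refine mul_le_one₀ (hF m) (v.nonneg _) (le_prod _ _ fun i _ => ?_)
  rw [map_pow]
  exact pow_le_one₀ (v.nonneg _) (hx i)

theorem aeval_sub_lt (hv : IsNonarchimedean v) (F : MvPolynomial σ K) (hF : ∀ m, v (algebraMap K L (coeff m F)) ≤ 1)
    {x x' : σ → L} (hx : ∀ i, v (x i) ≤ 1) (hx' : ∀ i, v (x' i) ≤ 1) (hd : ∀ i, v (x i - x' i) < 1) :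
    v (aeval x F - aeval x' F) < 1 := by
  rw [aeval_def, aeval_def, eval₂_eq, eval₂_eq, ← Finset.sum_sub_distrib]
  refine lt_sum hv _ _ fun m _ => ?_
  rw [← mul_sub, map_mul]
  refine (mul_le_of_le_one_left (v.nonneg _) (hF m)).trans_lt (lt_prod_sub hv _ _ _ (fun i _ => ?_) (fun i _ => ?_)
    fun i _ => lt_pow_sub hv (hx i) (hx' i) (hd i) _)
  · rw [map_pow]
    exact pow_le_one₀ (v.nonneg _) (hx i)
  · rw [map_pow]
    exact pow_le_one₀ (v.nonneg _) (hx' i)

/-- The size constants are `1` at almost all places. -/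
theorem k_eq_one (κ : SC K) (hv : IsNonarchimedean v) (h : ∀ a ∈ κ.T, v (algebraMap K L a) ≤ 1) : κ.k v = 1 := by
  rw [κ.k_eq]
  unfold cc cst
  rw [if_pos hv, one_mul, Finset.prod_eq_one, one_pow]
  intro a ha
  exact max_eq_left (h a ha)

end

section

variable {K : Type u} [Field K] {N : ℕ} (A : AV K N)

/-- The integrality of the forms `S a b`, and their values at almost all places. -/
theorem exists_E : ∃ E : Finset K, ∀ (L : Type u) [Field L] [Algebra K L] (v : AbsoluteValue L ℝ),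
    IsNonarchimedean v → (∀ a ∈ E, v (algebraMap K L a) ≤ 1) →
      (∀ y y' : Fin (N + 1) → L, A.IsPt y → A.IsPt y' → vm v y = 1 → vm v y' = 1 →
        ∃ a b, 1 ≤ v (aeval (Sum.elim y y') (A.S a b))) ∧
      ∀ a b m, v (algebraMap K L (coeff m (A.S a b))) ≤ 1 := by
  classical
  obtain ⟨κ, hκ⟩ := A.S_lower
  refine ⟨κ.T ∪ Finset.univ.biUnion fun p : Fin (N + 1) × Fin (N + 1) =>
    (A.S p.1 p.2).support.image fun m => coeff m (A.S p.1 p.2), fun L _ _ v hv hE => ⟨?_, ?_⟩⟩
  · intro y y' hy hy' h1 h1'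
    obtain ⟨a, b, h⟩ := hκ L v y y' hy hy'
    rw [h1, h1', k_eq_one κ hv fun a ha => hE a (Finset.mem_union_left _ ha)] at h
    refine ⟨a, b, ?_⟩
    simpa using h
  · intro a b m
    by_cases hm : m ∈ (A.S a b).support
    · refine hE _ (Finset.mem_union_right _ (Finset.mem_biUnion.2 ⟨(a, b), Finset.mem_univ _, ?_⟩))
      exact Finset.mem_image_of_mem _ hm
    · rw [notMem_support_iff.1 hm, map_zero, map_zero]
      exact zero_le_one

/-- **The difference of two points with the same reduction has the reduction of the zero.** -/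
theorem red : ∃ E : Finset K, ∀ (L : Type u) [Field L] [Algebra K L] (v : AbsoluteValue L ℝ),
    IsNonarchimedean v → (∀ a ∈ E, v (algebraMap K L a) ≤ 1) →
      ∀ (Q Q' : A.Pts L) (y y' z o : Fin (N + 1) → L), A.Rep Q y → A.Rep Q' y' → A.Rep (Q' - Q) z → A.Rep 0 o →
        vm v y = 1 → vm v y' = 1 → vm v z = 1 → vm v o = 1 → (∀ i, v (y' i - y i) < 1) →
          ∀ b c, v (z b * o c - z c * o b) < 1 := by
  obtain ⟨E, hE⟩ := exists_E A
  refine ⟨E, fun L _ _ v hv hEv Q Q' y y' z o hy hy' hz ho h1 h1' hz1 ho1 hd => ?_⟩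
  obtain ⟨hlow, hcoef⟩ := hE L v hv hEv
  have hle : ∀ (x : Fin (N + 1) → L), vm v x = 1 → ∀ i, v (x i) ≤ 1 := fun x hx i => by
    rw [← hx]
    exact le_vm v x i
  -- the two matrices
  obtain ⟨c₀, hc₀, hM⟩ := AV.Rep.spec hy' hy
  obtain ⟨c₁, hc₁, hN⟩ := AV.Rep.spec hy hy
  obtain ⟨s, hs, hzz⟩ := hz
  have hQQ : A.Rep (Q - Q) o := by
    rw [sub_self]
    exact ho
  obtain ⟨t, ht, hoo⟩ := hQQ
  have hyy : ∀ i, v (Sum.elim y y i) ≤ 1 := by
    rintro (i | i)
    · exact hle y h1 i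
    · exact hle y h1 i
  have hy'y : ∀ i, v (Sum.elim y' y i) ≤ 1 := by
    rintro (i | i)
    · exact hle y' h1' i
    · exact hle y h1 i
  have hdd : ∀ i, v (Sum.elim y' y i - Sum.elim y y i) < 1 := by
    rintro (i | i)
    · exact hd i
    · show v (y i - y i) < 1
      rw [sub_self, map_zero]
      exact zero_lt_one
  have hMN : ∀ a b, v (aeval (Sum.elim y' y) (A.S a b) - aeval (Sum.elim y y) (A.S a b)) < 1 := fun a b =>
    aeval_sub_lt hv _ (hcoef a b) hy'y hyy hdd
  have hNle : ∀ a b, v (aeval (Sum.elim y y) (A.S a b)) ≤ 1 := fun a b => aeval_le hv _ (hcoef a b) hyy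
  obtain ⟨a, d, had⟩ := hlow y y hy.isPt hy.isPt h1 h1
  -- the row `a`
  obtain ⟨lam, hlam⟩ : ∃ lam : L, ∀ b, aeval (Sum.elim y' y) (A.S a b) = lam * z b := by
    refine ⟨c₀ * A.x (Q' + Q) a * s⁻¹, fun b => ?_⟩
    rw [hM, hzz]
    field_simp
  obtain ⟨μ, hμ⟩ : ∃ μ : L, ∀ b, aeval (Sum.elim y y) (A.S a b) = μ * o b := by
    refine ⟨c₁ * A.x (Q + Q) a * t⁻¹, fun b => ?_⟩
    rw [hN, hoo]
    field_simp
  have hμ1 : 1 ≤ v μ := by
    rw [hμ, map_mul] at had
    exact had.trans (mul_le_of_le_one_right (v.nonneg _) (hle o ho1 d))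
  have hlam1 : 1 ≤ v lam := by
    by_contra hcon
    push Not at hcon
    have h2 : v (aeval (Sum.elim y' y) (A.S a d)) < 1 := by
      rw [hlam, map_mul]
      exact (mul_le_of_le_one_right (v.nonneg _) (hle z hz1 d)).trans_lt hcon
    have h3 := lt_sub hv h2 (hMN a d)
    rw [sub_sub_cancel] at h3
    exact absurd had (not_le.2 h3)
  intro b c
  have key : lam * μ * (z b * o c - z c * o b) =
      (aeval (Sum.elim y' y) (A.S a b) - aeval (Sum.elim y y) (A.S a b)) * aeval (Sum.elim y y) (A.S a c) -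
        (aeval (Sum.elim y' y) (A.S a c) - aeval (Sum.elim y y) (A.S a c)) * aeval (Sum.elim y y) (A.S a b) := by
    rw [hlam, hlam, hμ, hμ]
    ring
  have h4 : v (lam * μ * (z b * o c - z c * o b)) < 1 := by
    rw [key]
    refine lt_sub hv ?_ ?_
    · rw [map_mul]
      exact (mul_le_of_le_one_right (v.nonneg _) (hNle a c)).trans_lt (hMN a b)
    · rw [map_mul]
      exact (mul_le_of_le_one_right (v.nonneg _) (hNle a b)).trans_lt (hMN a c)
  rw [map_mul, map_mul] at h4
  exact (le_mul_of_one_le_left (v.nonneg _) (one_le_mul_of_one_le_of_one_le hlam1 hμ1)).trans_lt h4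

end

end MWA
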