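import Pool.Agent.Lib.MP_17a322_ntMW.D0
import Pool.Agent.Lib.MP_17a322_ntMW.M3A

/-!
# Mordell-Weil, block M3: reduction modulo almost all primes
-/

set_option autoImplicit false

universe u

namespace MWA

open MvPolynomial Pool.Agent.Lib.MP_17a322_nt.VA Pool.Agent.Lib.MP_17a322_nt.VJ
open NumberField IsDedekindDomain

section

variable {K : Type u} [Field K] {N : ℕ} (A : AV K N) {L : Type u} [Field L] [Algebra K L]

theorem exists_minor {t : A.Pts L} (ht : t ≠ 0) :
    ∃ b c, A.x t b * A.x (0 : A.Pts L) c - A.x t c * A.x (0 : A.Pts L) b ≠ 0 := by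
  by_contra hcon
  push Not at hcon
  apply ht
  have h1 : A.Rep (0 : A.Pts L) (A.x t) := by
    refine (AV.Rep.self (0 : A.Pts L)).of_prop (A.x_ne t) fun i j => ?_
    have := hcon i j
    linear_combination -this
  exact (AV.Rep.self t).unique h1

/-- A non-zero vector over `L` has norm `1` at almost all places. -/
theorem vm_of_unit {n : ℕ} (x : Fin (n + 1) → L) (hx : x ≠ 0) {M : Type u} [Field M] [Algebra L M] (v : AbsoluteValue M ℝ)
    (h1 : ∀ i, v (algebraMap L M (x i)) ≤ 1) (h2 : ∀ i, v (algebraMap L M (x i)⁻¹) ≤ 1) :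
    vm v (fun i => algebraMap L M (x i)) = 1 := by
  obtain ⟨i, hi⟩ := Function.ne_iff.1 hx
  refine le_antisymm (vm_le v h1) ?_
  refine le_trans ?_ (le_vm v (fun i => algebraMap L M (x i)) i)
  have h3 := h2 i
  rw [map_inv₀, map_inv₀] at h3
  have h4 : 0 < v (algebraMap L M (x i)) := v.pos ((map_ne_zero _).2 hi)
  exact (inv_le_one₀ h4).1 h3

theorem red_fin {T : Set (A.Pts L)} (hT : T.Finite) : ∃ E : Finset L, ∀ (M : Type u) [Field M] [Algebra K M]
    [Algebra L M] [IsScalarTower K L M] (v : AbsoluteValue M ℝ), IsNonarchimedean v →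
      (∀ a ∈ E, v (algebraMap L M a) ≤ 1) → ∀ (Q Q' : A.Pts M) (y y' : Fin (N + 1) → M), A.Rep Q y → A.Rep Q' y' →
        vm v y = 1 → vm v y' = 1 → (∀ i, v (y' i - y i) < 1) → ∀ t ∈ T,
          Q' - Q = A.img (IsScalarTower.toAlgHom K L M) t → t = 0 := by
  classical
  obtain ⟨E, hE⟩ := red A
  -- the coordinates of the points and the minors
  obtain ⟨G, hG⟩ : ∃ G : A.Pts L → Finset L, ∀ t, (∀ i, A.x t i ∈ G t) ∧ (∀ i, (A.x t i)⁻¹ ∈ G t) ∧
      ∀ b c, (A.x t b * A.x (0 : A.Pts L) c - A.x t c * A.x (0 : A.Pts L) b)⁻¹ ∈ G t := by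
    refine ⟨fun t => (Finset.univ.image fun i => A.x t i) ∪ ((Finset.univ.image fun i => (A.x t i)⁻¹) ∪
      Finset.univ.image fun p : Fin (N + 1) × Fin (N + 1) =>
        (A.x t p.1 * A.x (0 : A.Pts L) p.2 - A.x t p.2 * A.x (0 : A.Pts L) p.1)⁻¹), fun t => ⟨fun i => ?_, fun i => ?_,
      fun b c => ?_⟩⟩
    · exact Finset.mem_union_left _ (Finset.mem_image_of_mem _ (Finset.mem_univ i))
    · exact Finset.mem_union_right _ (Finset.mem_union_left _ (Finset.mem_image_of_mem _ (Finset.mem_univ i)))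
    · exact Finset.mem_union_right _ (Finset.mem_union_right _ (Finset.mem_image.2 ⟨(b, c), Finset.mem_univ _, rfl⟩))
  refine ⟨E.image (algebraMap K L) ∪ (G 0 ∪ hT.toFinset.biUnion G), fun M _ _ _ _ v hv hEv Q Q' y y' hy hy' h1 h1' hd
    t ht hQt => ?_⟩
  by_contra ht0
  obtain ⟨b, c, hbc⟩ := exists_minor A ht0
  have hG0 : ∀ a ∈ G 0, v (algebraMap L M a) ≤ 1 := fun a ha =>
    hEv a (Finset.mem_union_right _ (Finset.mem_union_left _ ha))
  have hGt : ∀ a ∈ G t, v (algebraMap L M a) ≤ 1 := fun a ha =>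
    hEv a (Finset.mem_union_right _ (Finset.mem_union_right _ (Finset.mem_biUnion.2 ⟨t, hT.mem_toFinset.2 ht, ha⟩)))
  have hE' : ∀ a ∈ E, v (algebraMap K M a) ≤ 1 := fun a ha => by
    rw [IsScalarTower.algebraMap_apply K L M]
    exact hEv _ (Finset.mem_union_left _ (Finset.mem_image_of_mem _ ha))
  have hz : A.Rep (Q' - Q) fun i => algebraMap L M (A.x t i) := by
    rw [hQt]
    exact A.img_rep (IsScalarTower.toAlgHom K L M) t
  have ho : A.Rep (0 : A.Pts M) fun i => algebraMap L M (A.x (0 : A.Pts L) i) := by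
    have h2 := A.img_rep (IsScalarTower.toAlgHom K L M) (0 : A.Pts L)
    rw [AV.img_zero] at h2
    exact h2
  have h3 := hE M v hv hE' Q Q' y y' _ _ hy hy' hz ho h1 h1'
    (vm_of_unit (A.x t) (A.x_ne t) v (fun i => hGt _ ((hG t).1 i)) fun i => hGt _ ((hG t).2.1 i))
    (vm_of_unit (A.x (0 : A.Pts L)) (A.x_ne 0) v (fun i => hG0 _ ((hG 0).1 i)) fun i => hG0 _ ((hG 0).2.1 i)) hd b c
  have h4 := hGt _ ((hG t).2.2 b c)
  rw [map_inv₀, map_inv₀] at h4
  have h5 : 0 < v (algebraMap L M (A.x t b * A.x (0 : A.Pts L) c - A.x t c * A.x (0 : A.Pts L) b)) :=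
    v.pos ((map_ne_zero _).2 hbc)
  have h6 := (inv_le_one₀ h5).1 h4
  rw [map_sub, map_mul, map_mul] at h6
  exact absurd h6 (not_le.2 h3)

end

/-! ### The places -/

section

variable {M : Type u} [Field M] [NumberField M] (w : HeightOneSpectrum (𝓞 M))

/-- The absolute value of the prime `w`. -/
noncomputable def abw : AbsoluteValue M ℝ := NumberField.HeightOneSpectrum.adicAbv M w

theorem abw_na : IsNonarchimedean (abw w) := NumberField.HeightOneSpectrum.isNonarchimedean_adicAbv M w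

theorem abw_le_one {x : M} : abw w x ≤ 1 ↔ w.valuation M x ≤ 1 := by
  unfold abw
  rw [NumberField.HeightOneSpectrum.adicAbv_def, ← NNReal.coe_one, NNReal.coe_le_coe]
  exact WithZeroMulInt.toNNReal_le_one_iff (NumberField.HeightOneSpectrum.one_lt_absNorm_nnreal w)

theorem abw_lt_one {x : M} : abw w x < 1 ↔ w.valuation M x < 1 := by
  unfold abw
  rw [NumberField.HeightOneSpectrum.adicAbv_def, ← NNReal.coe_one, NNReal.coe_lt_coe]
  exact WithZeroMulInt.toNNReal_lt_one_iff (NumberField.HeightOneSpectrum.one_lt_absNorm_nnreal w)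

/-- An automorphism which is trivial on the integers modulo `w` is trivial modulo `w`. -/
theorem inertia_lt {σ : M ≃+* M} (hσ : ∀ x : 𝓞 M, w.valuation M (σ (x : M) - x) < 1) {x : M}
    (hx : abw w x ≤ 1) : abw w (σ x - x) < 1 := by
  obtain ⟨n, d, hnd⟩ := HeightOneSpectrum.exists_primeCompl_mul_eq_of_integer w x ((abw_le_one w).1 hx)
  have hd1 : abw w ((d : 𝓞 M) : M) = 1 := by
    have h1 : abw w ((d : 𝓞 M) : M) ≤ 1 := (abw_le_one w).2 (w.valuation_le_one _)
    refine le_antisymm h1 ?_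
    by_contra hcon
    push Not at hcon
    exact d.2 ((w.valuation_lt_one_iff_mem _).1 ((abw_lt_one w).1 hcon))
  have hn1 : abw w (n : M) ≤ 1 := (abw_le_one w).2 (w.valuation_le_one _)
  have hsd := (abw_lt_one w).2 (hσ d)
  have hsn := (abw_lt_one w).2 (hσ n)
  have hv := abw_na w
  obtain ⟨D, hD⟩ : ∃ D : M, D = ((d : 𝓞 M) : M) := ⟨_, rfl⟩
  obtain ⟨n', hn'⟩ : ∃ n' : M, n' = (n : M) := ⟨_, rfl⟩
  have hnd' : x * D = n' := by
    rw [hD, hn']
    exact hnd
  rw [← hD] at hd1 hsd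
  rw [← hn'] at hn1 hsn
  have hsd1 : abw w (σ D) = 1 := by
    have h2 : abw w (σ D) ≤ 1 := by
      have h3 := hv (σ D - D) D
      rw [sub_add_cancel, hd1] at h3
      exact h3.trans (max_le hsd.le le_rfl)
    refine le_antisymm h2 ?_
    by_contra hcon
    push Not at hcon
    have h3 := lt_sub hv hcon hsd
    rw [sub_sub_cancel, hd1] at h3
    exact lt_irrefl _ h3
  have e : (σ x - x) * (σ D * D) = (σ n' - n') * D - n' * (σ D - D) := by
    rw [← hnd', map_mul]
    ring
  have h4 : abw w ((σ x - x) * (σ D * D)) < 1 := by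
    rw [e]
    refine lt_sub hv ?_ ?_
    · rw [map_mul, hd1, mul_one]
      exact hsn
    · rw [map_mul]
      exact (mul_le_of_le_one_left ((abw w).nonneg _) hn1).trans_lt hsd
  rwa [map_mul, map_mul, hsd1, hd1, mul_one, mul_one] at h4

/-- Integrality over a prime of `L` gives integrality over the primes above it. -/
theorem abw_over {L : Type u} [Field L] [NumberField L] [Algebra L M] (v : HeightOneSpectrum (𝓞 L))
    (h : w.asIdeal.LiesOver v.asIdeal) {a : L} (ha : v.valuation L a ≤ 1) : abw w (algebraMap L M a) ≤ 1 := by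
  rw [abw_le_one, ← HeightOneSpectrum.valuation_liesOver M v w a]
  exact pow_le_one₀ zero_le ha

end

/-- **BLOCK M3.** -/
theorem M3_of_fin {K : Type u} [Field K] {N : ℕ} (A : AV K N) {L : Type u} [Field L]
    [NumberField L] [Algebra K L] (hfin : {T : A.Pts L | T + T = 0}.Finite) (hT : T2 A L) :
    ∃ S : Set (HeightOneSpectrum (𝓞 L)), S.Finite ∧
      ∀ (M : Type u) [Field M] [NumberField M] [Algebra K M] [Algebra L M] [IsScalarTower K L M]
        (v : HeightOneSpectrum (𝓞 L)) (w : HeightOneSpectrum (𝓞 M)), v ∉ S →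
        w.asIdeal.LiesOver v.asIdeal → ∀ σ : M ≃ₐ[L] M,
          (∀ x : 𝓞 M, w.valuation M (σ (x : M) - x) < 1) → ∀ Q : A.Pts M,
            A.img (σ.toAlgHom.restrictScalars K) Q + A.img (σ.toAlgHom.restrictScalars K) Q = Q + Q →
              A.img (σ.toAlgHom.restrictScalars K) Q = Q := by
  classical
  obtain ⟨E, hE⟩ := red_fin A hfin
  refine ⟨⋃ a ∈ E, HeightOneSpectrum.Support (𝓞 L) a, E.finite_toSet.biUnion fun a _ =>
    HeightOneSpectrum.Support.finite (𝓞 L) a, fun M _ _ _ _ _ v w hv hw σ hσ Q hQ => ?_⟩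
  have hEw : ∀ a ∈ E, abw w (algebraMap L M a) ≤ 1 := by
    intro a ha
    refine abw_over w v hw ?_
    by_contra hcon
    push Not at hcon
    exact hv (Set.mem_iUnion₂.2 ⟨a, ha, hcon⟩)
  have hna := abw_na w
  -- normalised coordinates
  obtain ⟨i, c, z, hc, -, hz, hzi, hz1, -, -⟩ := exists_normal (abw w) (A.x_ne Q)
  have hzQ : A.Rep Q z := by
    refine ⟨c⁻¹, inv_ne_zero hc, fun t => ?_⟩
    rw [hz t, ← mul_assoc, inv_mul_cancel₀ hc, one_mul]
  have hσ' : ∀ x : M, abw w x ≤ 1 → abw w (σ x - x) < 1 := fun x hx =>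
    inertia_lt w (σ := σ.toRingEquiv) hσ hx
  have hvz : vm (abw w) z = 1 := by
    refine le_antisymm (vm_le _ hz1) ?_
    have h1 := le_vm (abw w) z i
    rwa [hzi, map_one] at h1
  have hzQ' : A.Rep (A.img (σ.toAlgHom.restrictScalars K) Q) fun t => σ (z t) := hzQ.img (σ.toAlgHom.restrictScalars K)
  have hvz' : vm (abw w) (fun t => σ (z t)) = 1 := by
    refine le_antisymm (vm_le _ fun t => ?_) ?_
    · have h1 := hna (σ (z t) - z t) (z t)
      rw [sub_add_cancel] at h1
      exact h1.trans (max_le (hσ' _ (hz1 t)).le (hz1 t))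
    · have h1 := le_vm (abw w) (fun t => σ (z t)) i
      simp only [hzi, map_one] at h1
      exact h1
  -- the difference is a point of order two
  obtain ⟨R, hR⟩ : ∃ R : A.Pts M, R = A.img (σ.toAlgHom.restrictScalars K) Q - Q := ⟨_, rfl⟩
  have hRR : R + R = 0 := by
    rw [hR, sub_add_sub_comm, hQ, sub_self]
  obtain ⟨t, ht⟩ := hT M R hRR
  have htt : t + t = 0 := by
    apply AV.img_injective (A := A) (IsScalarTower.toAlgHom K L M)
    rw [AV.img_add, AV.img_zero, ht, hRR]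
  have ht0 := hE M (abw w) hna hEw Q _ z _ hzQ hzQ' hvz hvz' (fun j => hσ' _ (hz1 j)) t htt (by rw [ht, hR])
  rw [ht0, AV.img_zero] at ht
  rw [← ht] at hR
  exact (sub_eq_zero.1 hR.symm)

end MWA
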