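import Pool.Agent.Lib.MP_17a322_ntMW.D0

/-!
The Mordell-Weil theorem for abelian varieties: the group of the points of order two.
-/

universe u

namespace MWA

open Pool.Agent.Lib.MP_17a322_nt.VA

/-- The points of order two. -/
def tor2 {K : Type u} [Field K] {N : ℕ} (A : AV K N) (L : Type u) [Field L] [Algebra K L] :
    AddSubgroup (A.Pts L) where
  carrier := {T | T + T = 0}
  zero_mem' := add_zero 0
  add_mem' := by
    intro a b ha hb
    show a + b + (a + b) = 0
    rw [add_add_add_comm, show a + a = 0 from ha, show b + b = 0 from hb, add_zero]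
  neg_mem' := by
    intro a ha
    show -a + -a = 0
    rw [← neg_add, show a + a = 0 from ha, neg_zero]

theorem mem_tor2 {K : Type u} [Field K] {N : ℕ} (A : AV K N) {L : Type u} [Field L] [Algebra K L]
    (T : A.Pts L) : T ∈ tor2 A L ↔ T + T = 0 := Iff.rfl

end MWA
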