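import Pool.Agent.Lib.MP_17a322_nt.VA.A3b

/-!
Mordell-Weil, leaf W2: every point is defined over a finite Galois extension.
-/

universe u

namespace MWA

open Pool.Agent.Lib.MP_17a322_nt.VA

/-- Every point is defined over a finite Galois extension.  PROOF.  Choose `j` with `A.x Q j ≠ 0`, `y i = A.x Q i / A.x Q j`.  Let
`M₀ = IntermediateField.adjoin L (Set.range y)`, finite dimensional over `L` (`IntermediateField.finiteDimensional_adjoin`, `Ω` is algebraic over `L`) and
`M` the field `normalClosure L M₀ Ω` (an `IntermediateField L Ω`; `M₀ ≤ M` by `IntermediateField.le_normalClosure`,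
finite dimensional: `normalClosure.is_finiteDimensional`, normal: `normalClosure.normal`, and separable as a subextension of `Ω`, so Galois).
The algebra structure over `K` is `((algebraMap L M).comp (algebraMap K L)).toAlgebra`, the scalar towers are `IsScalarTower.of_algebraMap_eq` (for
`K M Ω` use `IsScalarTower.algebraMap_apply K L Ω`).  `y i ∈ M`; the vector `z i = ⟨y i, _⟩` in `M` is a point (`AV.IsPt.of_injective`),
`z j = 1`, so `AV.exists_rep`, `AV.Rep.img`, `AV.Rep.unique` as in W1. -/
theorem W2 {K : Type u} [Field K] {N : ℕ} (A : AV K N) {L Ω : Type u} [Field L] [Field Ω]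
    [Algebra K L] [Algebra K Ω] [Algebra L Ω] [IsScalarTower K L Ω] [IsGalois L Ω] (Q : A.Pts Ω) :
    ∃ (M : Type u) (_ : Field M) (_ : Algebra K M) (_ : Algebra L M) (_ : Algebra M Ω)
      (_ : IsScalarTower K L M) (_ : IsScalarTower K M Ω) (_ : IsScalarTower L M Ω),
      FiniteDimensional L M ∧ IsGalois L M ∧
      ∃ Q₀ : A.Pts M, A.img (IsScalarTower.toAlgHom K M Ω) Q₀ = Q := by
  classical
  obtain ⟨j, hj⟩ := A.exists_x_ne Q
  obtain ⟨y, hy⟩ : ∃ y : Fin (N + 1) → Ω, y = fun i => (A.x Q j)⁻¹ * A.x Q i := ⟨_, rfl⟩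
  have hyQ : A.Rep Q y := by
    rw [hy]
    exact (AV.Rep.self Q).smul (inv_ne_zero hj)
  have hyj : y j = 1 := by
    rw [hy]
    exact inv_mul_cancel₀ hj
  have fd0 : FiniteDimensional L (IntermediateField.adjoin L (Set.range y)) :=
    IntermediateField.finiteDimensional_adjoin fun x _ => Algebra.IsIntegral.isIntegral x
  obtain ⟨M, hM⟩ : ∃ M : IntermediateField L Ω,
      M = IntermediateField.normalClosure L (IntermediateField.adjoin L (Set.range y)) Ω := ⟨_, rfl⟩
  have hle : IntermediateField.adjoin L (Set.range y) ≤ M := by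
    rw [hM]
    exact IntermediateField.le_normalClosure _
  have hfd : FiniteDimensional L M := by
    rw [hM]
    exact normalClosure.is_finiteDimensional _ _ _
  have hn : Normal L M := by
    rw [hM]
    exact normalClosure.normal _ _ _
  have hs : Algebra.IsSeparable L M := Algebra.isSeparable_tower_bot_of_isSeparable L M Ω
  have hg : IsGalois L M := ⟨⟩
  have hKM : IsScalarTower K M Ω := IsScalarTower.of_algebraMap_eq fun x => rfl
  refine ⟨M, inferInstance, inferInstance, inferInstance, inferInstance, inferInstance, hKM, inferInstance,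
    hfd, hg, ?_⟩
  have hyM : ∀ i, y i ∈ M := fun i => hle (IntermediateField.subset_adjoin L _ ⟨i, rfl⟩)
  have hφ : Function.Injective (IsScalarTower.toAlgHom K M Ω) := (algebraMap M Ω).injective
  have h1 : A.IsPt fun i => (IsScalarTower.toAlgHom K M Ω) (⟨y i, hyM i⟩ : M) := hyQ.isPt
  have h2 : A.IsPt fun i => (⟨y i, hyM i⟩ : M) := AV.IsPt.of_injective _ hφ h1
  have h3 : (fun i => (⟨y i, hyM i⟩ : M)) ≠ 0 := by
    intro h0
    have h4 : ((⟨y j, hyM j⟩ : M) : Ω) = ((0 : M) : Ω) := congrArg Subtype.val (congrFun h0 j)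
    have h5 : y j = 0 := h4
    rw [hyj] at h5
    exact one_ne_zero h5
  obtain ⟨Q₀, hQ₀⟩ := A.exists_rep h3 h2
  exact ⟨Q₀, (hQ₀.img (IsScalarTower.toAlgHom K M Ω)).unique hyQ⟩

end MWA
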